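import Mathlib

/-!
# Formulas of bounded overlap depth
-/

set_option autoImplicit false

namespace Pool.Agent.Helper91.Ov

open MvPolynomial

variable {n : ℕ}

/-- Polynomials in the variables of `s`. -/
def Supp (s : Finset (Fin n)) (f : MvPolynomial (Fin n) ℂ) : Prop :=
  f ∈ supported ℂ (s : Set (Fin n))

theorem Supp.mono {s t : Finset (Fin n)} {f : MvPolynomial (Fin n) ℂ}
    (hf : Supp s f) (h : s ⊆ t) : Supp t f :=
  supported_mono (Finset.coe_subset.2 h) hf

theorem Supp.add {s : Finset (Fin n)} {f g : MvPolynomial (Fin n) ℂ}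
    (hf : Supp s f) (hg : Supp s g) : Supp s (f + g) := add_mem hf hg

theorem Supp.mul {s : Finset (Fin n)} {f g : MvPolynomial (Fin n) ℂ}
    (hf : Supp s f) (hg : Supp s g) : Supp s (f * g) := mul_mem hf hg

theorem Supp.const (s : Finset (Fin n)) (c : ℂ) : Supp s (C c) :=
  (supported ℂ (s : Set (Fin n))).algebraMap_mem c

/-- Homomorphisms only depend on the values of the variables. -/
theorem Supp.congr {s : Finset (Fin n)} {f : MvPolynomial (Fin n) ℂ} (hf : Supp s f)
    {A : Type*} [CommSemiring A] [Algebra ℂ A] (φ ψ : MvPolynomial (Fin n) ℂ →ₐ[ℂ] A)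
    (h : ∀ i ∈ s, φ (X i) = ψ (X i)) : φ f = ψ f := by
  have h1 : supported ℂ (s : Set (Fin n)) ≤ AlgHom.equalizer φ ψ := by
    apply Algebra.adjoin_le
    rintro _ ⟨i, hi, rfl⟩
    exact h i (Finset.mem_coe.1 hi)
  exact h1 hf

theorem Supp.pderiv_eq_zero {s : Finset (Fin n)} {f : MvPolynomial (Fin n) ℂ} (hf : Supp s f)
    {v : Fin n} (hv : v ∉ s) : MvPolynomial.pderiv v f = 0 := by
  apply pderiv_eq_zero_of_notMem_vars
  intro h
  exact hv (Finset.mem_coe.1 (mem_supported.1 hf h))

theorem Supp.pderiv {s : Finset (Fin n)} {f : MvPolynomial (Fin n) ℂ} (hf : Supp s f)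
    (v : Fin n) : Supp s (MvPolynomial.pderiv v f) := by
  induction hf using Algebra.adjoin_induction with
  | mem x hx =>
    obtain ⟨i, hi, rfl⟩ := hx
    rw [pderiv_X]
    by_cases hiv : i = v
    · subst hiv
      rw [Pi.single_eq_same]
      exact one_mem _
    · rw [Pi.single_eq_of_ne hiv]
      exact zero_mem _
  | algebraMap c =>
    rw [MvPolynomial.algebraMap_eq, pderiv_C]
    exact zero_mem _
  | add x y _ _ hx hy =>
    rw [map_add]
    exact add_mem hx hy
  | mul x y hx' hy' hx hy =>
    rw [Derivation.leibniz, smul_eq_mul, smul_eq_mul]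
    exact add_mem (mul_mem hx' hy) (mul_mem hy' hx)

/-- Read-once formulas over the blocks `B`; `s` contains the variables. -/
inductive Clo (B : Finset (Fin n) → MvPolynomial (Fin n) ℂ → Prop) :
    Finset (Fin n) → MvPolynomial (Fin n) ℂ → Prop
  | base {s : Finset (Fin n)} {f : MvPolynomial (Fin n) ℂ} (h : B s f) : Clo B s f
  | const (s : Finset (Fin n)) (c : ℂ) : Clo B s (C c)
  | add {s t : Finset (Fin n)} {f g : MvPolynomial (Fin n) ℂ} (hst : Disjoint s t)
      (hf : Clo B s f) (hg : Clo B t g) : Clo B (s ∪ t) (f + g)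
  | mul {s t : Finset (Fin n)} {f g : MvPolynomial (Fin n) ℂ} (hst : Disjoint s t)
      (hf : Clo B s f) (hg : Clo B t g) : Clo B (s ∪ t) (f * g)

/-- Sums and products of two polynomials. -/
def Blk (Q : Finset (Fin n) → MvPolynomial (Fin n) ℂ → Prop) (s : Finset (Fin n))
    (f : MvPolynomial (Fin n) ℂ) : Prop :=
  ∃ g h, Q s g ∧ Q s h ∧ (f = g + h ∨ f = g * h)

/-- Polynomials in at most `k` variables. -/
def Leaf (k : ℕ) (s : Finset (Fin n)) (f : MvPolynomial (Fin n) ℂ) : Prop :=
  ∃ t : Finset (Fin n), t ⊆ s ∧ t.card ≤ k ∧ Supp t f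

/-- Formulas of overlap depth at most `Δ` whose leaves are polynomials in at most `k` variables. -/
def OD (k : ℕ) : ℕ → Finset (Fin n) → MvPolynomial (Fin n) ℂ → Prop
  | 0 => Clo (Leaf k)
  | Δ + 1 => Clo (Blk (OD k Δ))

section

variable {B B' : Finset (Fin n) → MvPolynomial (Fin n) ℂ → Prop}

theorem Clo.mono_set (hB : ∀ s t f, s ⊆ t → B s f → B t f) {s t : Finset (Fin n)}
    {f : MvPolynomial (Fin n) ℂ} (hf : Clo B s f) (hst : s ⊆ t) : Clo B t f := by
  classical
  induction hf generalizing t with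
  | base h => exact Clo.base (hB _ _ _ hst h)
  | const s c => exact Clo.const t c
  | @add s s' f g hd hf hg ihf ihg =>
    have h1 : (t \ s') ∪ s' = t :=
      Finset.sdiff_union_of_subset (Finset.union_subset_right hst)
    have h2 : s ⊆ t \ s' := fun x hx => Finset.mem_sdiff.2
      ⟨hst (Finset.mem_union_left _ hx), Finset.disjoint_left.1 hd hx⟩
    rw [← h1]
    exact Clo.add Finset.sdiff_disjoint (ihf h2) (ihg (Finset.Subset.refl _))
  | @mul s s' f g hd hf hg ihf ihg =>
    have h1 : (t \ s') ∪ s' = t :=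
      Finset.sdiff_union_of_subset (Finset.union_subset_right hst)
    have h2 : s ⊆ t \ s' := fun x hx => Finset.mem_sdiff.2
      ⟨hst (Finset.mem_union_left _ hx), Finset.disjoint_left.1 hd hx⟩
    rw [← h1]
    exact Clo.mul Finset.sdiff_disjoint (ihf h2) (ihg (Finset.Subset.refl _))

theorem Clo.supp (hB : ∀ s f, B s f → Supp s f) {s : Finset (Fin n)}
    {f : MvPolynomial (Fin n) ℂ} (hf : Clo B s f) : Supp s f := by
  induction hf with
  | base h => exact hB _ _ h
  | const s c => exact Supp.const s c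
  | add hd hf hg ihf ihg =>
    exact Supp.add (ihf.mono Finset.subset_union_left) (ihg.mono Finset.subset_union_right)
  | mul hd hf hg ihf ihg =>
    exact Supp.mul (ihf.mono Finset.subset_union_left) (ihg.mono Finset.subset_union_right)

theorem Clo.imp (h : ∀ s f, B s f → Clo B' s f) {s : Finset (Fin n)}
    {f : MvPolynomial (Fin n) ℂ} (hf : Clo B s f) : Clo B' s f := by
  induction hf with
  | base hb => exact h _ _ hb
  | const s c => exact Clo.const s c
  | add hd hf hg ihf ihg => exact Clo.add hd ihf ihg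
  | mul hd hf hg ihf ihg => exact Clo.mul hd ihf ihg

/-- Derivatives. -/
theorem Clo.pderiv (hBs : ∀ s f, B s f → Supp s f) (h : ∀ s f, B s f → Clo B' s f) {v : Fin n}
    (h' : ∀ s f, B s f → Clo B' s (MvPolynomial.pderiv v f)) {s : Finset (Fin n)}
    {f : MvPolynomial (Fin n) ℂ} (hf : Clo B s f) : Clo B' s (MvPolynomial.pderiv v f) := by
  induction hf with
  | base hb => exact h' _ _ hb
  | const s c =>
    rw [pderiv_C, ← C_0]
    exact Clo.const s 0
  | add hd hf hg ihf ihg =>
    rw [map_add]
    exact Clo.add hd ihf ihg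
  | @mul s t f g hd hf hg ihf ihg =>
    rw [Derivation.leibniz, smul_eq_mul, smul_eq_mul]
    by_cases hv : v ∈ s
    · rw [(hg.supp hBs).pderiv_eq_zero (Finset.disjoint_left.1 hd hv), mul_zero, zero_add,
        mul_comm]
      exact Clo.mul hd ihf (hg.imp h)
    · rw [(hf.supp hBs).pderiv_eq_zero hv, mul_zero, add_zero]
      exact Clo.mul hd (hf.imp h) ihg

/-- Isolating the block of one variable. -/
theorem Clo.split (hB : ∀ s t f, s ⊆ t → B s f → B t f) {s : Finset (Fin n)}
    {f : MvPolynomial (Fin n) ℂ} (hf : Clo B s f) (v : Fin n) :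
    Clo B (s.erase v) f ∨ ∃ (t : Finset (Fin n)) (g α β : MvPolynomial (Fin n) ℂ),
      B t g ∧ t ⊆ s ∧ v ∈ t ∧ Clo B (s \ t) α ∧ Clo B (s \ t) β ∧ f = α * g + β := by
  induction hf with
  | @base s f h =>
    by_cases hv : v ∈ s
    · right
      refine ⟨s, f, C 1, C 0, h, Finset.Subset.refl s, hv, Clo.const _ 1, Clo.const _ 0, ?_⟩
      rw [C_1, C_0, one_mul, add_zero]
    · left
      rw [Finset.erase_eq_of_notMem hv]
      exact Clo.base h
  | const s c => exact Or.inl (Clo.const _ c)
  | @add s t f g hd hf hg ihf ihg =>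
    by_cases hv : v ∈ s
    · have hvt : v ∉ t := Finset.disjoint_left.1 hd hv
      rcases ihf with h | ⟨u, g', α, β, h1, h2, h3, h4, h5, h6⟩
      · left
        refine (Clo.add (hd.mono_left (Finset.erase_subset v s)) h hg).mono_set hB ?_
        rw [Finset.erase_union_distrib, Finset.erase_eq_of_notMem hvt]
      · right
        have hut : Disjoint u t := hd.mono_left h2
        have hsub : (s \ u) ∪ t ⊆ (s ∪ t) \ u := by
          apply Finset.union_subset
          · exact Finset.sdiff_subset_sdiff Finset.subset_union_left (Finset.Subset.refl _)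
          · exact fun x hx => Finset.mem_sdiff.2 ⟨Finset.mem_union_right _ hx,
              Finset.disjoint_right.1 hut hx⟩
        refine ⟨u, g', α, β + g, h1, h2.trans Finset.subset_union_left, h3,
          h4.mono_set hB (Finset.subset_union_left.trans hsub),
          (Clo.add (hd.mono_left Finset.sdiff_subset) h5 hg).mono_set hB hsub, ?_⟩
        rw [h6, add_assoc]
    · rcases ihg with h | ⟨u, g', α, β, h1, h2, h3, h4, h5, h6⟩
      · left
        refine (Clo.add (hd.mono_right (Finset.erase_subset v t)) hf h).mono_set hB ?_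
        rw [Finset.erase_union_distrib, Finset.erase_eq_of_notMem hv]
      · right
        have hut : Disjoint s u := hd.mono_right h2
        have hsub : s ∪ (t \ u) ⊆ (s ∪ t) \ u := by
          apply Finset.union_subset
          · exact fun x hx => Finset.mem_sdiff.2 ⟨Finset.mem_union_left _ hx,
              Finset.disjoint_left.1 hut hx⟩
          · exact Finset.sdiff_subset_sdiff Finset.subset_union_right (Finset.Subset.refl _)
        refine ⟨u, g', α, f + β, h1, h2.trans Finset.subset_union_right, h3,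
          h4.mono_set hB (Finset.subset_union_right.trans hsub),
          (Clo.add (hd.mono_right Finset.sdiff_subset) hf h5).mono_set hB hsub, ?_⟩
        rw [h6]
        ring
  | @mul s t f g hd hf hg ihf ihg =>
    by_cases hv : v ∈ s
    · have hvt : v ∉ t := Finset.disjoint_left.1 hd hv
      rcases ihf with h | ⟨u, g', α, β, h1, h2, h3, h4, h5, h6⟩
      · left
        refine (Clo.mul (hd.mono_left (Finset.erase_subset v s)) h hg).mono_set hB ?_
        rw [Finset.erase_union_distrib, Finset.erase_eq_of_notMem hvt]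
      · right
        have hut : Disjoint u t := hd.mono_left h2
        have hsub : (s \ u) ∪ t ⊆ (s ∪ t) \ u := by
          apply Finset.union_subset
          · exact Finset.sdiff_subset_sdiff Finset.subset_union_left (Finset.Subset.refl _)
          · exact fun x hx => Finset.mem_sdiff.2 ⟨Finset.mem_union_right _ hx,
              Finset.disjoint_right.1 hut hx⟩
        refine ⟨u, g', α * g, β * g, h1, h2.trans Finset.subset_union_left, h3,
          (Clo.mul (hd.mono_left Finset.sdiff_subset) h4 hg).mono_set hB hsub,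
          (Clo.mul (hd.mono_left Finset.sdiff_subset) h5 hg).mono_set hB hsub, ?_⟩
        rw [h6]
        ring
    · rcases ihg with h | ⟨u, g', α, β, h1, h2, h3, h4, h5, h6⟩
      · left
        refine (Clo.mul (hd.mono_right (Finset.erase_subset v t)) hf h).mono_set hB ?_
        rw [Finset.erase_union_distrib, Finset.erase_eq_of_notMem hv]
      · right
        have hut : Disjoint s u := hd.mono_right h2
        have hsub : s ∪ (t \ u) ⊆ (s ∪ t) \ u := by
          apply Finset.union_subset
          · exact fun x hx => Finset.mem_sdiff.2 ⟨Finset.mem_union_left _ hx,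
              Finset.disjoint_left.1 hut hx⟩
          · exact Finset.sdiff_subset_sdiff Finset.subset_union_right (Finset.Subset.refl _)
        refine ⟨u, g', f * α, f * β, h1, h2.trans Finset.subset_union_right, h3,
          (Clo.mul (hd.mono_right Finset.sdiff_subset) hf h4).mono_set hB hsub,
          (Clo.mul (hd.mono_right Finset.sdiff_subset) hf h5).mono_set hB hsub, ?_⟩
        rw [h6]
        ring

end

/-! ### The classes `OD` -/

theorem Leaf.mono_set {k : ℕ} {s t : Finset (Fin n)} {f : MvPolynomial (Fin n) ℂ} (hst : s ⊆ t)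
    (h : Leaf k s f) : Leaf k t f := by
  obtain ⟨u, h1, h2, h3⟩ := h
  exact ⟨u, h1.trans hst, h2, h3⟩

theorem Leaf.supp {k : ℕ} {s : Finset (Fin n)} {f : MvPolynomial (Fin n) ℂ} (h : Leaf k s f) :
    Supp s f := by
  obtain ⟨u, h1, _, h3⟩ := h
  exact h3.mono h1

theorem OD.mono_set {k : ℕ} : ∀ {Δ : ℕ} {s t : Finset (Fin n)} {f : MvPolynomial (Fin n) ℂ},
    OD k Δ s f → s ⊆ t → OD k Δ t f := by
  intro Δ
  induction Δ with
  | zero =>
    intro s t f h hst
    exact Clo.mono_set (B := Leaf k) (fun s t f hst h => Leaf.mono_set hst h) h hst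
  | succ Δ ih =>
    intro s t f h hst
    refine Clo.mono_set (B := Blk (OD k Δ)) ?_ h hst
    rintro s t f hst ⟨g, h, hg, hh, e⟩
    exact ⟨g, h, ih hg hst, ih hh hst, e⟩

theorem Blk.mono_set {k Δ : ℕ} {s t : Finset (Fin n)} {f : MvPolynomial (Fin n) ℂ} (hst : s ⊆ t)
    (h : Blk (OD k Δ) s f) : Blk (OD k Δ) t f := by
  obtain ⟨g, h, hg, hh, e⟩ := h
  exact ⟨g, h, hg.mono_set hst, hh.mono_set hst, e⟩

theorem Blk.supp {Q : Finset (Fin n) → MvPolynomial (Fin n) ℂ → Prop}
    (hQ : ∀ s f, Q s f → Supp s f) {s : Finset (Fin n)} {f : MvPolynomial (Fin n) ℂ}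
    (h : Blk Q s f) : Supp s f := by
  obtain ⟨g, h, hg, hh, rfl | rfl⟩ := h
  · exact Supp.add (hQ _ _ hg) (hQ _ _ hh)
  · exact Supp.mul (hQ _ _ hg) (hQ _ _ hh)

theorem OD.supp {k : ℕ} : ∀ {Δ : ℕ} {s : Finset (Fin n)} {f : MvPolynomial (Fin n) ℂ},
    OD k Δ s f → Supp s f := by
  intro Δ
  induction Δ with
  | zero =>
    intro s f h
    exact Clo.supp (B := Leaf k) (fun s f h => Leaf.supp h) h
  | succ Δ ih =>
    intro s f h
    exact Clo.supp (B := Blk (OD k Δ)) (fun s f h => Blk.supp (fun s f => ih) h) h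

theorem OD.const (k Δ : ℕ) (s : Finset (Fin n)) (c : ℂ) : OD k Δ s (C c) := by
  cases Δ with
  | zero => exact Clo.const s c
  | succ Δ => exact Clo.const s c

theorem OD.zero (k Δ : ℕ) (s : Finset (Fin n)) : OD k Δ s 0 := by
  rw [← C_0]
  exact OD.const k Δ s 0

theorem OD.succ {k Δ : ℕ} {s : Finset (Fin n)} {f : MvPolynomial (Fin n) ℂ} (h : OD k Δ s f) :
    OD k (Δ + 1) s f :=
  Clo.base ⟨f, 0, h, OD.zero k Δ s, Or.inl (add_zero f).symm⟩

theorem OD.mono {k Δ Δ' : ℕ} (hΔ : Δ ≤ Δ') {s : Finset (Fin n)} {f : MvPolynomial (Fin n) ℂ}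
    (h : OD k Δ s f) : OD k Δ' s f := by
  induction Δ', hΔ using Nat.le_induction with
  | base => exact h
  | succ _ _ ih => exact ih.succ

theorem OD.oadd {k Δ : ℕ} {s : Finset (Fin n)} {f g : MvPolynomial (Fin n) ℂ} (hf : OD k Δ s f)
    (hg : OD k Δ s g) : OD k (Δ + 1) s (f + g) := Clo.base ⟨f, g, hf, hg, Or.inl rfl⟩

theorem OD.omul {k Δ : ℕ} {s : Finset (Fin n)} {f g : MvPolynomial (Fin n) ℂ} (hf : OD k Δ s f)
    (hg : OD k Δ s g) : OD k (Δ + 1) s (f * g) := Clo.base ⟨f, g, hf, hg, Or.inr rfl⟩

theorem OD.add {k Δ : ℕ} {s t : Finset (Fin n)} {f g : MvPolynomial (Fin n) ℂ}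
    (hst : Disjoint s t) (hf : OD k Δ s f) (hg : OD k Δ t g) : OD k Δ (s ∪ t) (f + g) := by
  cases Δ with
  | zero => exact Clo.add hst hf hg
  | succ Δ => exact Clo.add hst hf hg

theorem OD.mul {k Δ : ℕ} {s t : Finset (Fin n)} {f g : MvPolynomial (Fin n) ℂ}
    (hst : Disjoint s t) (hf : OD k Δ s f) (hg : OD k Δ t g) : OD k Δ (s ∪ t) (f * g) := by
  cases Δ with
  | zero => exact Clo.mul hst hf hg
  | succ Δ => exact Clo.mul hst hf hg

theorem OD.leaf {k Δ : ℕ} {s : Finset (Fin n)} {f : MvPolynomial (Fin n) ℂ} (h : Leaf k s f) :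
    OD k Δ s f := (show OD k 0 s f from Clo.base h).mono (Nat.zero_le Δ)

/-- Derivatives. -/
theorem OD.pderiv {k : ℕ} {Δ : ℕ} {s : Finset (Fin n)} {f : MvPolynomial (Fin n) ℂ}
    (h : OD k Δ s f) (v : Fin n) : OD k (2 * Δ) s (MvPolynomial.pderiv v f) := by
  induction Δ generalizing s f with
  | zero =>
    refine Clo.pderiv (B := Leaf k) (B' := Leaf k) (fun s f h => Leaf.supp h) (fun s f h => Clo.base h) ?_ h
    rintro s f ⟨t, h1, h2, h3⟩
    exact Clo.base ⟨t, h1, h2, h3.pderiv v⟩
  | succ Δ ih =>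
    have e : 2 * (Δ + 1) = 2 * Δ + 1 + 1 := by ring
    rw [e]
    refine Clo.pderiv (B := Blk (OD k Δ)) (B' := Blk (OD k (2 * Δ + 1)))
      (fun s f h => Blk.supp (fun s f h => OD.supp h) h) ?_ ?_ h
    · rintro s f ⟨g, h, hg, hh, e⟩
      have hg' : OD k (2 * Δ + 1) s g := hg.mono (by omega)
      have hh' : OD k (2 * Δ + 1) s h := hh.mono (by omega)
      exact Clo.base ⟨g, h, hg', hh', e⟩
    · rintro s f ⟨g, h, hg, hh, rfl | rfl⟩
      · rw [map_add]
        exact ((ih hg).succ).oadd ((ih hh).succ)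
      · rw [Derivation.leibniz, smul_eq_mul, smul_eq_mul]
        have hg' : OD k (2 * Δ) s g := hg.mono (by omega)
        have hh' : OD k (2 * Δ) s h := hh.mono (by omega)
        exact (hg'.omul (ih hh)).oadd (hh'.omul (ih hg))

/-- The number of parameters for one variable. -/
def par (k : ℕ) : ℕ → ℕ
  | 0 => k + 2
  | Δ + 1 => 2 * par k Δ + 2

theorem OD.split_var {k : ℕ} {Δ : ℕ} {s : Finset (Fin n)} {f : MvPolynomial (Fin n) ℂ}
    (hf : OD k Δ s f) (v : Fin n) : ∃ l : List (MvPolynomial (Fin n) ℂ), l.length ≤ par k Δ ∧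
      (∀ g ∈ l, OD k Δ (s.erase v) g) ∧
      f ∈ Algebra.adjoin ℂ (insert (X v) {g | g ∈ l}) := by
  classical
  induction Δ generalizing s f with
  | zero =>
    rcases Clo.split (B := Leaf k) (fun s t f hst h => Leaf.mono_set hst h) hf v with
      h | ⟨t, g, α, β, ⟨u, hut, huk, hg⟩, hts, hvt, hα, hβ, rfl⟩
    · refine ⟨[f], ?_, ?_, ?_⟩
      · rw [List.length_singleton, par]
        omega
      · intro g hg
        rw [List.mem_singleton.1 hg]
        exact h
      · exact Algebra.subset_adjoin (Or.inr (List.mem_singleton_self f))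
    · have hsub : s \ t ⊆ s.erase v := fun x hx => by
        rw [Finset.mem_sdiff] at hx
        refine Finset.mem_erase.2 ⟨?_, hx.1⟩
        rintro rfl
        exact hx.2 hvt
      refine ⟨α :: β :: (u.erase v).toList.map X, ?_, ?_, ?_⟩
      · rw [List.length_cons, List.length_cons, List.length_map, Finset.length_toList, par]
        have := Finset.card_erase_le (s := u) (a := v)
        omega
      · intro g' hg'
        rcases List.mem_cons.1 hg' with rfl | hg'
        · exact OD.mono_set (Δ := 0) hα hsub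
        rcases List.mem_cons.1 hg' with rfl | hg'
        · exact OD.mono_set (Δ := 0) hβ hsub
        obtain ⟨w, hw, rfl⟩ := List.mem_map.1 hg'
        rw [Finset.mem_toList, Finset.mem_erase] at hw
        apply OD.leaf
        refine ⟨{w}, ?_, ?_, ?_⟩
        · rw [Finset.singleton_subset_iff, Finset.mem_erase]
          exact ⟨hw.1, hts (hut hw.2)⟩
        · rw [Finset.card_singleton]
          exact le_trans (Finset.card_pos.2 ⟨w, hw.2⟩) huk
        · exact Algebra.subset_adjoin ⟨w, by simp, rfl⟩
      · have h1 : ∀ g' ∈ (α :: β :: (u.erase v).toList.map X), g' ∈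
            Algebra.adjoin ℂ (insert (X v : MvPolynomial (Fin n) ℂ)
              {g | g ∈ (α :: β :: (u.erase v).toList.map X)}) :=
          fun g' hg' => Algebra.subset_adjoin (Or.inr hg')
        refine add_mem (mul_mem (h1 α List.mem_cons_self) ?_)
          (h1 β (List.mem_cons_of_mem _ List.mem_cons_self))
        have h2 : supported ℂ (u : Set (Fin n)) ≤ Algebra.adjoin ℂ (insert (X v : MvPolynomial (Fin n) ℂ)
            {g | g ∈ (α :: β :: (u.erase v).toList.map X)}) := by
          apply Algebra.adjoin_le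
          rintro _ ⟨w, hw, rfl⟩
          by_cases hwv : w = v
          · subst hwv
            exact Algebra.subset_adjoin (Or.inl rfl)
          · apply h1
            refine List.mem_cons_of_mem _ (List.mem_cons_of_mem _ (List.mem_map.2 ⟨w, ?_, rfl⟩))
            rw [Finset.mem_toList, Finset.mem_erase]
            exact ⟨hwv, Finset.mem_coe.1 hw⟩
        exact h2 hg
  | succ Δ ih =>
    rcases Clo.split (B := Blk (OD k Δ)) (fun s t f hst h => Blk.mono_set hst h) hf v with
      h | ⟨t, g, α, β, ⟨g1, g2, hg1, hg2, hg⟩, hts, hvt, hα, hβ, rfl⟩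
    · refine ⟨[f], ?_, ?_, ?_⟩
      · rw [List.length_singleton, par]
        omega
      · intro g hg
        rw [List.mem_singleton.1 hg]
        exact h
      · exact Algebra.subset_adjoin (Or.inr (List.mem_singleton_self f))
    · have hsub : s \ t ⊆ s.erase v := fun x hx => by
        rw [Finset.mem_sdiff] at hx
        refine Finset.mem_erase.2 ⟨?_, hx.1⟩
        rintro rfl
        exact hx.2 hvt
      have hsub' : t.erase v ⊆ s.erase v := Finset.erase_subset_erase v hts
      obtain ⟨l1, a1, b1, c1⟩ := ih hg1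
      obtain ⟨l2, a2, b2, c2⟩ := ih hg2
      refine ⟨α :: β :: (l1 ++ l2), ?_, ?_, ?_⟩
      · rw [List.length_cons, List.length_cons, List.length_append, par]
        omega
      · intro g' hg'
        rcases List.mem_cons.1 hg' with rfl | hg'
        · exact OD.mono_set (Δ := Δ + 1) hα hsub
        rcases List.mem_cons.1 hg' with rfl | hg'
        · exact OD.mono_set (Δ := Δ + 1) hβ hsub
        rcases List.mem_append.1 hg' with hg' | hg'
        · exact ((b1 g' hg').mono_set hsub').succ
        · exact ((b2 g' hg').mono_set hsub').succ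
      · have h1 : ∀ g' ∈ (α :: β :: (l1 ++ l2)), g' ∈
            Algebra.adjoin ℂ (insert (X v : MvPolynomial (Fin n) ℂ)
              {g | g ∈ (α :: β :: (l1 ++ l2))}) :=
          fun g' hg' => Algebra.subset_adjoin (Or.inr hg')
        refine add_mem (mul_mem (h1 α List.mem_cons_self) ?_)
          (h1 β (List.mem_cons_of_mem _ List.mem_cons_self))
        have d1 : g1 ∈ Algebra.adjoin ℂ (insert (X v : MvPolynomial (Fin n) ℂ)
            {g | g ∈ (α :: β :: (l1 ++ l2))}) := by
          refine Algebra.adjoin_mono ?_ c1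
          apply Set.insert_subset_insert
          intro x hx
          exact List.mem_cons_of_mem _ (List.mem_cons_of_mem _ (List.mem_append_left _ hx))
        have d2 : g2 ∈ Algebra.adjoin ℂ (insert (X v : MvPolynomial (Fin n) ℂ)
            {g | g ∈ (α :: β :: (l1 ++ l2))}) := by
          refine Algebra.adjoin_mono ?_ c2
          apply Set.insert_subset_insert
          intro x hx
          exact List.mem_cons_of_mem _ (List.mem_cons_of_mem _ (List.mem_append_right _ hx))
        rcases hg with rfl | rfl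
        · exact add_mem d1 d2
        · exact mul_mem d1 d2

end Pool.Agent.Helper91.Ov
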