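import Mathlib
import Pool.Agent.Helper91.RO.Rep
import Pool.Agent.Helper91.RO.Chain
import Pool.Agent.Helper91.Ov.Def

/-!
# Products of matrices of bounded width along sequences of variables
-/

set_option autoImplicit false
set_option linter.unusedSectionVars false

namespace Pool.Agent.Helper91.Ov

open MvPolynomial
open Pool.Agent.Helper91.RO (res EA ev EA_C EA_EA EA_eq_self EA_mem EA_comm ev_EA EA_res ev_res
  res_univ steps chain)

variable {n : ℕ} {F : Type*} [Field F] [Algebra ℂ F] (p : Fin n → F)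

theorem EA_res_supp (S : Finset (Fin n)) {v : Fin n} {s : Finset (Fin n)}
    {f : MvPolynomial (Fin n) ℂ} (hf : Supp s f) (hv : v ∉ s) :
    EA p {v} (res p S f) = res p S f := by
  apply hf.congr (((EA p {v}).restrictScalars ℂ).comp (res p S)) (res p S)
  intro l hl
  have hlv : l ≠ v := fun h => hv (h ▸ hl)
  rw [AlgHom.comp_apply, AlgHom.restrictScalars_apply, EA_res, res, aeval_X, res, aeval_X]
  by_cases hS : l ∈ S
  · rw [if_pos (Finset.mem_erase.2 ⟨hlv, hS⟩), if_pos hS]
  · rw [if_neg (fun h => hS (Finset.mem_of_mem_erase h)), if_neg hS]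

/-- `R` is a product of matrices of size at most `w` along the list, each matrix involves only its
own variable among those of the list and is invertible at `p`. -/
def Rep (w : ℕ) (L : List (Fin n)) (R : MvPolynomial (Fin n) F) : Prop :=
  ∃ (ω : Type) (_ : Fintype ω) (_ : DecidableEq ω)
    (M : Fin n → Matrix ω ω (MvPolynomial (Fin n) F)) (a b : ω → MvPolynomial (Fin n) F),
    Fintype.card ω ≤ w ∧
    (∀ x ∈ L, ev p (M x).det ≠ 0) ∧
    (∀ x ∈ L, ∀ v ∈ L, v ≠ x → (M x).map (EA p {v}) = M x) ∧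
    (∀ v ∈ L, ∀ α, EA p {v} (a α) = a α) ∧ (∀ v ∈ L, ∀ α, EA p {v} (b α) = b α) ∧
    R = a ⬝ᵥ ((L.map M).prod.mulVec b)

theorem Rep.weaken {w w' : ℕ} {L : List (Fin n)} {R : MvPolynomial (Fin n) F}
    (h : Rep p w L R) (hw : w ≤ w') : Rep p w' L R := by
  obtain ⟨ω, i1, i2, M, a, b, h0, h⟩ := h
  exact ⟨ω, i1, i2, M, a, b, h0.trans hw, h⟩

theorem Rep.reverse {w : ℕ} {L : List (Fin n)} {R : MvPolynomial (Fin n) F}
    (h : Rep p w L R) : Rep p w L.reverse R := by
  obtain ⟨ω, i1, i2, M, a, b, h0, h1, h2, h3, h4, h5⟩ := h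
  refine ⟨ω, i1, i2, fun v => (M v).transpose, b, a, h0, ?_, ?_, ?_, ?_, ?_⟩
  · intro w hw
    rw [Matrix.det_transpose]
    exact h1 w (List.mem_reverse.1 hw)
  · intro w hw v hv hvw
    rw [Matrix.transpose_map, h2 w (List.mem_reverse.1 hw) v (List.mem_reverse.1 hv) hvw]
  · exact fun v hv => h4 v (List.mem_reverse.1 hv)
  · exact fun v hv => h3 v (List.mem_reverse.1 hv)
  · have e : (L.reverse.map fun v => (M v).transpose).prod = (L.map M).prod.transpose := by
      rw [Matrix.transpose_list_prod, List.map_map, List.map_reverse]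
      rfl
    rw [e, h5, Matrix.mulVec_transpose, Matrix.dotProduct_mulVec, dotProduct_comm]

section

variable {ω : Type} [Fintype ω] [DecidableEq ω]

theorem map_mul_inv (v : Fin n) (A B : Matrix ω ω (MvPolynomial (Fin n) F))
    (hA : A.map (EA p {v}) = A) (hB : B.map (EA p {v}) = B) : (A * B).map (EA p {v}) = A * B := by
  rw [Matrix.map_mul, hA, hB]

theorem map_one_inv (v : Fin n) :
    (1 : Matrix ω ω (MvPolynomial (Fin n) F)).map (EA p {v}) = 1 :=
  Matrix.map_one _ (map_zero _) (map_one _)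

theorem sublist_aux {L' L : List (Fin n)} (h : L'.Sublist L) (hL : L.Nodup)
    (M : Fin n → Matrix ω ω (MvPolynomial (Fin n) F))
    (hdet : ∀ w ∈ L, ev p (M w).det ≠ 0) :
    ∃ (A : Matrix ω ω (MvPolynomial (Fin n) F))
      (M' : Fin n → Matrix ω ω (MvPolynomial (Fin n) F)),
      ev p A.det ≠ 0 ∧ (∀ w ∈ L', ev p (M' w).det ≠ 0) ∧
      (L.map M).prod = A * (L'.map M').prod ∧
      ∀ v, (∀ w ∈ L, v ≠ w → (M w).map (EA p {v}) = M w) → (v ∈ L' ∨ v ∉ L) →
        A.map (EA p {v}) = A ∧ ∀ w ∈ L', v ≠ w → (M' w).map (EA p {v}) = M' w := by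
  classical
  induction h with
  | slnil =>
    refine ⟨1, M, ?_, ?_, ?_, ?_⟩
    · rw [Matrix.det_one, map_one]
      exact one_ne_zero
    · intro w hw
      exact absurd hw List.not_mem_nil
    · rw [one_mul]
    · intro v _ _
      refine ⟨map_one_inv p v, ?_⟩
      intro w hw
      exact absurd hw List.not_mem_nil
  | @cons L1 L2 u h ih =>
    obtain ⟨hu, hL2⟩ := List.nodup_cons.1 hL
    obtain ⟨A, M', h1, h2, h3, h4⟩ := ih hL2 fun w hw => hdet w (List.mem_cons_of_mem _ hw)
    refine ⟨M u * A, M', ?_, h2, ?_, ?_⟩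
    · rw [Matrix.det_mul, map_mul]
      exact mul_ne_zero (hdet u List.mem_cons_self) h1
    · rw [List.map_cons, List.prod_cons, h3, mul_assoc]
    · intro v hv hvL
      have hvu : v ≠ u := by
        rintro rfl
        rcases hvL with h5 | h5
        · exact hu (h.subset h5)
        · exact h5 List.mem_cons_self
      have h5 := h4 v (fun w hw => hv w (List.mem_cons_of_mem _ hw))
        (hvL.imp id fun h6 h7 => h6 (List.mem_cons_of_mem _ h7))
      exact ⟨map_mul_inv p v _ _ (hv u List.mem_cons_self hvu) h5.1, h5.2⟩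
  | @cons_cons L1 L2 u h ih =>
    obtain ⟨hu, hL2⟩ := List.nodup_cons.1 hL
    have hu1 : u ∉ L1 := fun h5 => hu (h.subset h5)
    obtain ⟨A, M', h1, h2, h3, h4⟩ := ih hL2 fun w hw => hdet w (List.mem_cons_of_mem _ hw)
    have hne : ∀ w ∈ L1, w ≠ u := fun w hw h5 => hu1 (h5 ▸ hw)
    refine ⟨1, Function.update M' u (M u * A), ?_, ?_, ?_, ?_⟩
    · rw [Matrix.det_one, map_one]
      exact one_ne_zero
    · intro w hw
      rcases List.mem_cons.1 hw with rfl | hw
      · rw [Function.update_self, Matrix.det_mul, map_mul]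
        exact mul_ne_zero (hdet w List.mem_cons_self) h1
      · rw [Function.update_of_ne (hne w hw)]
        exact h2 w hw
    · rw [one_mul, List.map_cons, List.prod_cons, List.map_cons, List.prod_cons,
        Function.update_self, h3, mul_assoc]
      congr 3
      apply List.map_congr_left
      intro w hw
      rw [Function.update_of_ne (hne w hw)]
    · intro v hv hvL
      have h5 : v ≠ u → A.map (EA p {v}) = A := fun hvu =>
        (h4 v (fun w hw => hv w (List.mem_cons_of_mem _ hw)) (hvL.imp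
          (fun h6 => (List.mem_cons.1 h6).resolve_left hvu)
          fun h6 h7 => h6 (List.mem_cons_of_mem _ h7))).1
      refine ⟨map_one_inv p v, ?_⟩
      intro w hw hvw
      rcases List.mem_cons.1 hw with rfl | hw
      · rw [Function.update_self]
        exact map_mul_inv p v _ _ (hv w List.mem_cons_self hvw) (h5 hvw)
      · rw [Function.update_of_ne (hne w hw)]
        refine (h4 v (fun w hw => hv w (List.mem_cons_of_mem _ hw)) ?_).2 w hw hvw
        rcases hvL with h6 | h6
        · rcases List.mem_cons.1 h6 with rfl | h6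
          · exact Or.inr hu
          · exact Or.inl h6
        · exact Or.inr fun h7 => h6 (List.mem_cons_of_mem _ h7)

end

theorem Rep.sublist {w : ℕ} {L' L : List (Fin n)} {R : MvPolynomial (Fin n) F}
    (h : Rep p w L R) (hL : L.Nodup) (hs : L'.Sublist L) : Rep p w L' R := by
  obtain ⟨ω, i1, i2, M, a, b, h0, h1, h2, h3, h4, h5⟩ := h
  obtain ⟨A, M', g1, g2, g3, g4⟩ := sublist_aux p hs hL M h1
  have g5 : ∀ v ∈ L', A.map (EA p {v}) = A ∧ ∀ w ∈ L', v ≠ w → (M' w).map (EA p {v}) = M' w :=
    fun v hv => g4 v (fun w hw hvw => h2 w hw v (hs.subset hv) hvw) (Or.inl hv)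
  refine ⟨ω, i1, i2, M', Matrix.vecMul a A, b, h0, g2, ?_, ?_, ?_, ?_⟩
  · intro w hw v hv hvw
    exact (g5 v hv).2 w hw hvw
  · intro v hv α
    have e := (g5 v hv).1
    rw [Matrix.vecMul, dotProduct, map_sum]
    apply Finset.sum_congr rfl
    intro β _
    rw [map_mul, h3 v (hs.subset hv)]
    congr 1
    exact congrFun (congrFun e β) α
  · exact fun v hv => h4 v (hs.subset hv)
  · rw [h5, g3, ← Matrix.mulVec_mulVec, Matrix.dotProduct_mulVec]

/-- A polynomial without the variables of the list. -/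
theorem rep_const (L : List (Fin n)) {R : MvPolynomial (Fin n) F}
    (hR : ∀ v ∈ L, EA p {v} R = R) : Rep p 1 L R := by
  refine ⟨Unit, inferInstance, inferInstance, fun _ => 1, fun _ => R, fun _ => 1, ?_, ?_, ?_, ?_,
    ?_, ?_⟩
  · rw [Fintype.card_unit]
  · intro w _
    rw [Matrix.det_one, map_one]
    exact one_ne_zero
  · exact fun w _ v _ _ => map_one_inv p v
  · exact fun v hv _ => hR v hv
  · exact fun v _ _ => map_one _
  · have e : (L.map fun _ => (1 : Matrix Unit Unit (MvPolynomial (Fin n) F))).prod = 1 := by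
      apply List.prod_eq_one
      intro x hx
      obtain ⟨w, _, rfl⟩ := List.mem_map.1 hx
      rfl
    rw [e, Matrix.one_mulVec]
    simp [dotProduct]

theorem prod_fromBlocks {ω₁ ω₂ : Type} [Fintype ω₁] [DecidableEq ω₁] [Fintype ω₂]
    [DecidableEq ω₂] {R : Type*} [CommRing R] (M₁ : Fin n → Matrix ω₁ ω₁ R)
    (M₂ : Fin n → Matrix ω₂ ω₂ R) (L : List (Fin n)) :
    (L.map fun v => Matrix.fromBlocks (M₁ v) 0 0 (M₂ v)).prod =
      Matrix.fromBlocks (L.map M₁).prod 0 0 (L.map M₂).prod := by
  induction L with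
  | nil =>
    rw [List.map_nil, List.map_nil, List.map_nil, List.prod_nil, List.prod_nil, List.prod_nil,
      Matrix.fromBlocks_one]
  | cons v L ih =>
    rw [List.map_cons, List.map_cons, List.map_cons, List.prod_cons, List.prod_cons,
      List.prod_cons, ih, Matrix.fromBlocks_multiply]
    simp only [Matrix.mul_zero, Matrix.zero_mul, add_zero, zero_add]

theorem Rep.add {w₁ w₂ : ℕ} {L : List (Fin n)} {R₁ R₂ : MvPolynomial (Fin n) F}
    (h₁ : Rep p w₁ L R₁) (h₂ : Rep p w₂ L R₂) : Rep p (w₁ + w₂) L (R₁ + R₂) := by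
  obtain ⟨ω₁, i1, i2, M₁, a₁, b₁, h0, h1, h2, h3, h4, h5⟩ := h₁
  obtain ⟨ω₂, j1, j2, M₂, a₂, b₂, g0, g1, g2, g3, g4, g5⟩ := h₂
  refine ⟨ω₁ ⊕ ω₂, inferInstance, inferInstance, fun v => Matrix.fromBlocks (M₁ v) 0 0 (M₂ v),
    Sum.elim a₁ a₂, Sum.elim b₁ b₂, ?_, ?_, ?_, ?_, ?_, ?_⟩
  · rw [Fintype.card_sum]
    omega
  · intro x hx
    rw [Matrix.det_fromBlocks_zero₂₁, map_mul]
    exact mul_ne_zero (h1 x hx) (g1 x hx)
  · intro x hx v hv hvx
    rw [Matrix.fromBlocks_map, h2 x hx v hv hvx, g2 x hx v hv hvx, Matrix.map_zero _ (map_zero _),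
      Matrix.map_zero _ (map_zero _)]
  · rintro v hv (α | α)
    · exact h3 v hv α
    · exact g3 v hv α
  · rintro v hv (α | α)
    · exact h4 v hv α
    · exact g4 v hv α
  · rw [prod_fromBlocks, Matrix.fromBlocks_mulVec, sumElim_dotProduct_sumElim, h5, g5]
    simp only [Matrix.zero_mulVec, add_zero, zero_add]
    rfl

open Kronecker in
theorem prod_kronecker {ω₁ ω₂ : Type} [Fintype ω₁] [DecidableEq ω₁] [Fintype ω₂]
    [DecidableEq ω₂] {R : Type*} [CommRing R] (M₁ : Fin n → Matrix ω₁ ω₁ R)
    (M₂ : Fin n → Matrix ω₂ ω₂ R) (L : List (Fin n)) :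
    (L.map fun v => (M₁ v) ⊗ₖ (M₂ v)).prod = (L.map M₁).prod ⊗ₖ (L.map M₂).prod := by
  induction L with
  | nil =>
    rw [List.map_nil, List.map_nil, List.map_nil, List.prod_nil, List.prod_nil, List.prod_nil,
      Matrix.one_kronecker_one]
  | cons v L ih =>
    rw [List.map_cons, List.map_cons, List.map_cons, List.prod_cons, List.prod_cons,
      List.prod_cons, ih, Matrix.mul_kronecker_mul]

open Kronecker in
theorem Rep.mul {w₁ w₂ : ℕ} {L : List (Fin n)} {R₁ R₂ : MvPolynomial (Fin n) F}
    (h₁ : Rep p w₁ L R₁) (h₂ : Rep p w₂ L R₂) : Rep p (w₁ * w₂) L (R₁ * R₂) := by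
  obtain ⟨ω₁, i1, i2, M₁, a₁, b₁, h0, h1, h2, h3, h4, h5⟩ := h₁
  obtain ⟨ω₂, j1, j2, M₂, a₂, b₂, g0, g1, g2, g3, g4, g5⟩ := h₂
  refine ⟨ω₁ × ω₂, inferInstance, inferInstance, fun v => (M₁ v) ⊗ₖ (M₂ v),
    fun x => a₁ x.1 * a₂ x.2, fun x => b₁ x.1 * b₂ x.2, ?_, ?_, ?_, ?_, ?_, ?_⟩
  · rw [Fintype.card_prod]
    exact Nat.mul_le_mul h0 g0
  · intro x hx
    rw [Matrix.det_kronecker, map_mul, map_pow, map_pow]
    exact mul_ne_zero (pow_ne_zero _ (h1 x hx)) (pow_ne_zero _ (g1 x hx))
  · intro x hx v hv hvx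
    ext1 i j
    have e1 := congrFun (congrFun (h2 x hx v hv hvx) i.1) j.1
    have e2 := congrFun (congrFun (g2 x hx v hv hvx) i.2) j.2
    rw [Matrix.map_apply] at e1 e2 ⊢
    change EA p {v} (((M₁ x) ⊗ₖ (M₂ x)) i j) = ((M₁ x) ⊗ₖ (M₂ x)) i j
    rw [Matrix.kronecker_apply, map_mul, e1, e2]
  · rintro v hv α
    rw [map_mul, h3 v hv, g3 v hv]
  · rintro v hv α
    rw [map_mul, h4 v hv, g4 v hv]
  · rw [prod_kronecker, h5, g5]
    simp only [dotProduct, Matrix.mulVec, Fintype.sum_prod_type, Matrix.kronecker_apply]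
    rw [Finset.sum_mul_sum]
    apply Finset.sum_congr rfl
    intro i _
    apply Finset.sum_congr rfl
    intro j _
    rw [mul_mul_mul_comm, Finset.sum_mul_sum]
    congr 1
    apply Finset.sum_congr rfl
    intro k _
    apply Finset.sum_congr rfl
    intro l _
    ring

theorem Rep.affine {w : ℕ} {L : List (Fin n)} {R α β : MvPolynomial (Fin n) F}
    (h : Rep p w L R) (hα : ∀ v ∈ L, EA p {v} α = α) (hβ : ∀ v ∈ L, EA p {v} β = β) :
    Rep p (w + 1) L (α * R + β) := by
  have h1 := ((rep_const p L hα).mul p h).add p (rep_const p L hβ)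
  rwa [one_mul] at h1

theorem rep_sum {ι : Type*} (s : Finset ι) {w : ℕ} {L : List (Fin n)}
    (R : ι → MvPolynomial (Fin n) F) (h : ∀ i ∈ s, Rep p w L (R i)) :
    Rep p (s.card * w) L (∑ i ∈ s, R i) := by
  classical
  induction s using Finset.induction_on with
  | empty =>
    refine ⟨Fin 0, inferInstance, inferInstance, fun _ => 1, fun _ => 0, fun _ => 0, ?_, ?_, ?_,
      ?_, ?_, ?_⟩
    · rw [Fintype.card_fin]
      exact Nat.zero_le _
    · intro w _
      rw [Matrix.det_one, map_one]
      exact one_ne_zero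
    · exact fun w _ v _ _ => map_one_inv p v
    · exact fun v _ _ => map_zero _
    · exact fun v _ _ => map_zero _
    · rw [Finset.sum_empty]
      simp [dotProduct]
  | insert a s ha ih =>
    rw [Finset.sum_insert ha, Finset.card_insert_of_notMem ha, add_mul, one_mul, add_comm _ w]
    exact (h a (Finset.mem_insert_self a s)).add p
      (ih fun i hi => h i (Finset.mem_insert_of_mem hi))

theorem rep_prod {ι : Type*} (s : Finset ι) {w : ℕ} {L : List (Fin n)}
    (R : ι → MvPolynomial (Fin n) F) (h : ∀ i ∈ s, Rep p w L (R i)) :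
    Rep p (w ^ s.card) L (∏ i ∈ s, R i) := by
  classical
  induction s using Finset.induction_on with
  | empty =>
    rw [Finset.prod_empty, Finset.card_empty, pow_zero]
    exact rep_const p L fun v _ => map_one _
  | insert a s ha ih =>
    rw [Finset.prod_insert ha, Finset.card_insert_of_notMem ha, pow_succ']
    exact (h a (Finset.mem_insert_self a s)).mul p
      (ih fun i hi => h i (Finset.mem_insert_of_mem hi))

theorem rep_det {t w : ℕ} {L : List (Fin n)}
    (R : Matrix (Fin t) (Fin t) (MvPolynomial (Fin n) F)) (h : ∀ i j, Rep p w L (R i j)) :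
    Rep p (t.factorial * w ^ t) L R.det := by
  classical
  rw [Matrix.det_apply']
  have h1 := rep_sum p (Finset.univ : Finset (Equiv.Perm (Fin t))) (w := 1 * w ^ t) (L := L)
    (fun σ => ((Equiv.Perm.sign σ : ℤ) : MvPolynomial (Fin n) F) * ∏ i, R (σ i) i) (by
      intro σ _
      refine (rep_const p L ?_).mul p ?_
      · intro v _
        rw [map_intCast]
      · have h2 := rep_prod p (Finset.univ : Finset (Fin t)) (w := w) (L := L)
          (fun i => R (σ i) i) (fun i _ => h _ _)
        rwa [Finset.card_univ, Fintype.card_fin] at h2)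
  rwa [Finset.card_univ, Fintype.card_perm, Fintype.card_fin, one_mul] at h1

/-- The algebraic contradiction. -/
theorem Rep.kill {w : ℕ} {L : List (Fin n)} {R : MvPolynomial (Fin n) F} (h : Rep p w L R)
    (hL : L.Nodup) (hlen : w ≤ L.length) (hz : ∀ v ∈ L, EA p {v} R = 0) : R = 0 := by
  classical
  obtain ⟨ω, i1, i2, M, a, b, h0, h1, h2, h3, h4, h5⟩ := h
  set K := FractionRing (MvPolynomial (Fin n) F) with hK
  set θ : MvPolynomial (Fin n) F →+* K := algebraMap _ K with hθ
  have hθi : Function.Injective θ := IsFractionRing.injective _ K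
  let MM : Finset (Fin n) → Fin n → Matrix ω ω (MvPolynomial (Fin n) F) :=
    fun A v => if v ∈ A then (M v).map (EA p {v}) else M v
  have hMM : ∀ (A : Finset (Fin n)), (∀ v ∈ A, v ∈ L) → ∀ x ∈ L,
      (M x).map (EA p A) = MM A x := by
    intro A hA x hx
    by_cases hxA : x ∈ A
    · have e : MM A x = (M x).map (EA p {x}) := if_pos hxA
      rw [e]
      ext1 i j
      rw [Matrix.map_apply, Matrix.map_apply, ← EA_mem p hxA]
      apply EA_eq_self
      intro v hv
      rw [EA_comm]
      by_cases hvx : v = x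
      · subst hvx
        rw [EA_EA, Finset.union_idempotent]
      · have e2 := congrFun (congrFun (h2 x hx v (hA v hv) hvx) i) j
        rw [Matrix.map_apply] at e2
        rw [e2]
    · have e : MM A x = M x := if_neg hxA
      rw [e]
      ext1 i j
      rw [Matrix.map_apply]
      apply EA_eq_self
      intro v hv
      exact congrFun (congrFun (h2 x hx v (hA v hv) (fun h => hxA (h ▸ hv))) i) j
  have hval : ∀ A : Finset (Fin n), (∀ v ∈ A, v ∈ L) → EA p A R =
      a ⬝ᵥ ((L.map fun v => MM A v).prod.mulVec b) := by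
    intro A hA
    rw [h5]
    have e1 : (L.map fun v => MM A v) = (L.map M).map fun X => X.map (EA p A) := by
      rw [List.map_map]
      apply List.map_congr_left
      intro x hx
      exact (hMM A hA x hx).symm
    have e2 : ((L.map M).map fun X => X.map (EA p A)).prod =
        (L.map M).prod.map (EA p A) := by
      have := map_list_prod ((EA p A).toRingHom.mapMatrix (m := ω)) (L.map M)
      exact this.symm
    rw [e1, e2, dotProduct, map_sum, dotProduct]
    apply Finset.sum_congr rfl
    intro α _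
    rw [map_mul, EA_eq_self p fun v hv => h3 v (hA v hv) α, Matrix.mulVec, Matrix.mulVec,
      dotProduct, dotProduct, map_sum]
    congr 1
    apply Finset.sum_congr rfl
    intro β _
    rw [map_mul, EA_eq_self p fun v hv => h4 v (hA v hv) β]
    rfl
  let T : Fin n → (ω → K) →ₗ[K] (ω → K) := fun v => ((M v).map θ).vecMulLinear
  let T0 : Fin n → (ω → K) →ₗ[K] (ω → K) := fun v =>
    (((M v).map (EA p {v})).map θ).vecMulLinear
  let lam : (ω → K) →ₗ[K] K :=
    { toFun := fun x => x ⬝ᵥ (θ ∘ b)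
      map_add' := fun x y => add_dotProduct _ _ _
      map_smul' := fun c x => smul_dotProduct _ _ _ }
  have hlam : ∀ x, lam x = x ⬝ᵥ (θ ∘ b) := fun x => rfl
  have key : ∀ (A : Finset (Fin n)) (L' : List (Fin n)) (x : ω → K),
      lam (steps T0 T A L' x) =
        x ⬝ᵥ (((L'.map fun v => (MM A v).map θ).prod).mulVec (θ ∘ b)) := by
    intro A L'
    induction L' with
    | nil =>
      intro x
      rw [steps, hlam, List.map_nil, List.prod_nil, Matrix.one_mulVec]
    | cons v L' ih =>
      intro x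
      rw [steps, ih, List.map_cons, List.prod_cons, ← Matrix.mulVec_mulVec,
        Matrix.dotProduct_mulVec x]
      congr 1
      by_cases hv : v ∈ A
      · rw [if_pos hv]
        change Matrix.vecMul x (((M v).map (EA p {v})).map θ) = _
        rw [show MM A v = (M v).map (EA p {v}) from if_pos hv]
      · rw [if_neg hv]
        change Matrix.vecMul x ((M v).map θ) = _
        rw [show MM A v = M v from if_neg hv]
  have hθv : ∀ A : Finset (Fin n), lam (steps T0 T A L (θ ∘ a)) =
      θ (a ⬝ᵥ ((L.map fun v => MM A v).prod.mulVec b)) := by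
    intro A
    rw [key]
    have e1 : (L.map fun v => (MM A v).map θ).prod = (L.map fun v => MM A v).prod.map θ := by
      have := map_list_prod (θ.mapMatrix (m := ω)) (L.map fun v => MM A v)
      rw [List.map_map] at this
      exact this.symm
    rw [e1, dotProduct, dotProduct, map_sum]
    apply Finset.sum_congr rfl
    intro α _
    rw [map_mul, Matrix.mulVec, Matrix.mulVec, dotProduct, dotProduct, map_sum]
    congr 1
    apply Finset.sum_congr rfl
    intro β _
    rw [map_mul]
    rfl
  have main := chain T0 T lam L hL ?_ (θ ∘ a) ⊥ ?_ ?_ ?_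
  · rw [hθv] at main
    have e' : ∀ v, (MM ∅ v) = M v := fun v => if_neg (Finset.notMem_empty v)
    simp only [e'] at main
    have main' : θ R = 0 := by
      rw [h5]
      exact main
    exact hθi (main'.trans (map_zero θ).symm)
  · intro v hv
    apply Matrix.vecMul_injective_of_isUnit
    rw [Matrix.isUnit_iff_isUnit_det, isUnit_iff_ne_zero]
    intro hdet
    apply h1 v hv
    have e1 : (((M v).map (EA p {v})).map θ).det = θ (EA p {v} (M v).det) := by
      rw [AlgHom.map_det, RingHom.map_det]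
      rfl
    rw [e1] at hdet
    have e2 : EA p {v} (M v).det = 0 := hθi (hdet.trans (map_zero θ).symm)
    rw [← ev_EA p {v}, e2, map_zero]
  · intro x hx A
    rw [Submodule.mem_bot] at hx
    subst hx
    rw [key, zero_dotProduct]
  · rintro A ⟨v, hv, hvA⟩
    have hc : steps T0 T A L (θ ∘ a) = steps T0 T (A.filter (· ∈ L)) L (θ ∘ a) := by
      apply Pool.Agent.Helper91.RO.steps_congr
      intro u hu
      rw [Finset.mem_filter]
      exact ⟨fun h => ⟨h, hu⟩, fun h => h.1⟩
    have hA' : ∀ v ∈ A.filter (· ∈ L), v ∈ L := fun v hv => (Finset.mem_filter.1 hv).2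
    rw [hc, hθv, ← hval _ hA', ← EA_mem p (Finset.mem_filter.2 ⟨hvA, hv⟩), hz v hv, map_zero,
      map_zero]
  · rw [finrank_bot, zero_add, Module.finrank_fintype_fun_eq_card]
    exact h0.trans hlen

end Pool.Agent.Helper91.Ov
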