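import Mathlib
import Pool.Agent.Helper91.RO.Cat
import Pool.Agent.Helper91.Ov.Rep

/-!
# Long sequences of variables in read-once formulas over blocks
-/

set_option autoImplicit false
set_option linter.unusedSectionVars false

namespace Pool.Agent.Helper91.Ov

open MvPolynomial
open Pool.Agent.Helper91.RO (res EA ev uni dia uni_mulVec dia_mulVec uni_det dia_det uni_map dia_map
  ev_res)

variable {n : ℕ} {F : Type*} [Field F] [Algebra ℂ F] (p : Fin n → F)

/-- A caterpillar: a long list of variables of `V` along which `R` is a product of `2 × 2`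
matrices. -/
def Cat (c : ℕ) (s V : Finset (Fin n)) (R : MvPolynomial (Fin n) F) : Prop :=
  ∃ (L : List (Fin n)) (M : Fin n → Matrix (Fin 2) (Fin 2) (MvPolynomial (Fin n) F)),
    L.Nodup ∧ (∀ v ∈ L, v ∈ V) ∧ L ≠ [] ∧ V.card ≤ c * 2 ^ (L.length - 1) ∧
    (∀ w ∈ L, ev p (M w).det ≠ 0) ∧
    (∀ w ∈ L, ∀ v, v ≠ w → (v ∈ L ∨ v ∉ s) → (M w).map (EA p {v}) = M w) ∧
    (L.map M).prod.mulVec ![0, 1] = ![R, 1]

theorem Cat.inv {c : ℕ} (hc : 1 ≤ c) {s V : Finset (Fin n)} {R : MvPolynomial (Fin n) F}
    (hV : V.Nonempty) (hR : ∀ v, (v ∈ V ∨ v ∉ s) → EA p {v} R = R) : Cat p c s V R := by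
  classical
  obtain ⟨v0, L', hL⟩ : ∃ v0 L', V.toList = v0 :: L' := by
    cases h : V.toList with
    | nil => exact absurd (Finset.toList_eq_nil.1 h) hV.ne_empty
    | cons a l => exact ⟨a, l, rfl⟩
  have hnd : (v0 :: L').Nodup := hL ▸ V.nodup_toList
  have hmem : ∀ v, v ∈ v0 :: L' ↔ v ∈ V := fun v => by rw [← hL, Finset.mem_toList]
  have hcard : V.card = L'.length + 1 := by rw [← Finset.length_toList, hL, List.length_cons]
  refine ⟨v0 :: L', fun w => if w = v0 then uni R else 1, hnd, fun v hv => (hmem v).1 hv,
    List.cons_ne_nil _ _, ?_, ?_, ?_, ?_⟩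
  · rw [hcard, List.length_cons, Nat.add_sub_cancel]
    exact (Nat.lt_two_pow_self (n := L'.length)).trans_le (Nat.le_mul_of_pos_left _ hc)
  · intro w _
    dsimp only
    by_cases hw : w = v0
    · rw [if_pos hw, uni_det, map_one]
      exact one_ne_zero
    · rw [if_neg hw, Matrix.det_one, map_one]
      exact one_ne_zero
  · intro w _ v _ hv
    dsimp only
    by_cases hw : w = v0
    · rw [if_pos hw]
      apply uni_map
      exact hR v (hv.imp (fun h => (hmem v).1 h) id)
    · rw [if_neg hw]
      exact map_one_inv p v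
  · rw [List.map_cons, List.prod_cons, if_pos rfl]
    have e : (L'.map fun w => if w = v0 then uni R else
        (1 : Matrix (Fin 2) (Fin 2) (MvPolynomial (Fin n) F))).prod = 1 := by
      apply List.prod_eq_one
      intro x hx
      obtain ⟨w, hw, rfl⟩ := List.mem_map.1 hx
      rw [if_neg]
      rintro rfl
      exact (List.nodup_cons.1 hnd).1 hw
    rw [e, mul_one, uni_mulVec, zero_add]

/-- One gate. -/
theorem Cat.step {c : ℕ} {s t V W : Finset (Fin n)} {R R' : MvPolynomial (Fin n) F}
    (hst : Disjoint s t) (hVs : V ⊆ s) (hWt : W ⊆ t) (hWV : W.card ≤ V.card)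
    (h : Cat p c s V R)
    (A : Matrix (Fin 2) (Fin 2) (MvPolynomial (Fin n) F)) (hA : ev p A.det ≠ 0)
    (hAt : ∀ v ∉ t, A.map (EA p {v}) = A) (hR : A.mulVec ![R, 1] = ![R', 1]) :
    Cat p c (s ∪ t) (V ∪ W) R' := by
  classical
  obtain ⟨L, M, h1, h2, h3, h4, h5, h6, h7⟩ := h
  have hLt : ∀ v ∈ L, v ∉ t := fun v hv => Finset.disjoint_left.1 hst (hVs (h2 v hv))
  rcases W.eq_empty_or_nonempty with rfl | ⟨u, hu⟩
  · -- merge the matrix with the first one
    obtain ⟨v0, L', rfl⟩ : ∃ v0 L', L = v0 :: L' := by
      cases L with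
      | nil => exact absurd rfl h3
      | cons a l => exact ⟨a, l, rfl⟩
    have hne : ∀ w ∈ L', w ≠ v0 := by
      rintro w hw rfl
      exact (List.nodup_cons.1 h1).1 hw
    refine ⟨v0 :: L', Function.update M v0 (A * M v0), h1, fun v hv =>
      Finset.mem_union_left _ (h2 v hv), h3, by rwa [Finset.union_empty], ?_, ?_, ?_⟩
    · intro w hw
      rcases List.mem_cons.1 hw with rfl | hw
      · rw [Function.update_self, Matrix.det_mul, map_mul]
        exact mul_ne_zero hA (h5 w List.mem_cons_self)
      · rw [Function.update_of_ne (hne w hw)]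
        exact h5 w (List.mem_cons_of_mem _ hw)
    · intro w hw v hvw hv
      have hv' : v ∈ v0 :: L' ∨ v ∉ s := hv.imp id fun h8 h9 => h8 (Finset.mem_union_left _ h9)
      rcases List.mem_cons.1 hw with rfl | hw
      · rw [Function.update_self]
        apply map_mul_inv
        · apply hAt
          rcases hv with h8 | h8
          · exact hLt v h8
          · exact fun h9 => h8 (Finset.mem_union_right _ h9)
        · exact h6 w List.mem_cons_self v hvw hv'
      · rw [Function.update_of_ne (hne w hw)]
        exact h6 w (List.mem_cons_of_mem _ hw) v hvw hv'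
    · rw [List.map_cons, List.prod_cons, Function.update_self]
      have e : L'.map (Function.update M v0 (A * M v0)) = L'.map M := by
        apply List.map_congr_left
        intro w hw
        rw [Function.update_of_ne (hne w hw)]
      rw [e, mul_assoc, ← Matrix.mulVec_mulVec, ← List.prod_cons, ← List.map_cons, h7, hR]
  · -- a new variable
    have hut : u ∈ t := hWt hu
    have huL : u ∉ L := fun h8 => hLt u h8 hut
    have hne : ∀ w ∈ L, w ≠ u := by
      rintro w hw rfl
      exact huL hw
    have hus : u ∉ s := Finset.disjoint_right.1 hst hut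
    refine ⟨u :: L, Function.update M u A, List.nodup_cons.2 ⟨huL, h1⟩, ?_,
      List.cons_ne_nil _ _, ?_, ?_, ?_, ?_⟩
    · intro v hv
      rcases List.mem_cons.1 hv with rfl | hv
      · exact Finset.mem_union_right _ hu
      · exact Finset.mem_union_left _ (h2 v hv)
    · rw [List.length_cons, Nat.add_sub_cancel]
      have hl : 1 ≤ L.length := List.length_pos_iff.2 h3
      calc (V ∪ W).card ≤ V.card + W.card := Finset.card_union_le _ _
        _ ≤ V.card + V.card := by omega
        _ ≤ c * 2 ^ (L.length - 1) + c * 2 ^ (L.length - 1) := by omega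
        _ = c * 2 ^ L.length := by
          rw [← two_mul, ← mul_assoc, mul_comm 2 c, mul_assoc, ← pow_succ']
          congr 2
          omega
    · intro w hw
      rcases List.mem_cons.1 hw with rfl | hw
      · rw [Function.update_self]
        exact hA
      · rw [Function.update_of_ne (hne w hw)]
        exact h5 w hw
    · intro w hw v hvw hv
      rcases List.mem_cons.1 hw with rfl | hw
      · rw [Function.update_self]
        apply hAt
        rcases hv with h8 | h8
        · exact hLt v ((List.mem_cons.1 h8).resolve_left hvw)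
        · exact fun h9 => h8 (Finset.mem_union_right _ h9)
      · rw [Function.update_of_ne (hne w hw)]
        apply h6 w hw v hvw
        rcases hv with h8 | h8
        · rcases List.mem_cons.1 h8 with rfl | h8
          · exact Or.inr hus
          · exact Or.inl h8
        · exact Or.inr fun h9 => h8 (Finset.mem_union_left _ h9)
    · rw [List.map_cons, List.prod_cons, Function.update_self]
      have e : L.map (Function.update M u A) = L.map M := by
        apply List.map_congr_left
        intro w hw
        rw [Function.update_of_ne (hne w hw)]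
      rw [e, ← Matrix.mulVec_mulVec, h7, hR]

theorem Cat.rep {c : ℕ} {s V : Finset (Fin n)} {R : MvPolynomial (Fin n) F}
    (h : Cat p c s V R) :
    ∃ L : List (Fin n), L.Nodup ∧ (∀ v ∈ L, v ∈ V) ∧ L ≠ [] ∧ V.card ≤ c * 2 ^ (L.length - 1) ∧
      Rep p 2 L R := by
  obtain ⟨L, M, h1, h2, h3, h4, h5, h6, h7⟩ := h
  refine ⟨L, h1, h2, h3, h4, Fin 2, inferInstance, inferInstance, M, ![1, 0], ![0, 1], ?_, h5,
    ?_, ?_, ?_, ?_⟩
  · rw [Fintype.card_fin]
  · exact fun w hw v hv hvw => h6 w hw v hvw (Or.inl hv)
  · intro v _ α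
    fin_cases α <;> simp
  · intro v _ α
    fin_cases α <;> simp
  · rw [h7]
    simp [dotProduct, Fin.sum_univ_two]

/-- Many variables in one block. -/
def Big (B : Finset (Fin n) → MvPolynomial (Fin n) ℂ → Prop) (c : ℕ) (s V : Finset (Fin n))
    (f : MvPolynomial (Fin n) ℂ) : Prop :=
  ∃ (t : Finset (Fin n)) (g α β : MvPolynomial (Fin n) ℂ), B t g ∧ t ⊆ s ∧ c < (V ∩ t).card ∧
    Supp (s \ t) α ∧ Supp (s \ t) β ∧ f = α * g + β

section

variable {B : Finset (Fin n) → MvPolynomial (Fin n) ℂ → Prop}

theorem Big.add {c : ℕ} {s s' V V' : Finset (Fin n)} {f g : MvPolynomial (Fin n) ℂ}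
    (h : Big B c s V f) (hd : Disjoint s s') (hV : V ⊆ V') (hg : Supp s' g) :
    Big B c (s ∪ s') V' (f + g) := by
  obtain ⟨t, g', α, β, h1, h2, h3, h4, h5, h6⟩ := h
  have hs1 : s \ t ⊆ (s ∪ s') \ t :=
    Finset.sdiff_subset_sdiff Finset.subset_union_left (Finset.Subset.refl _)
  have hs2 : s' ⊆ (s ∪ s') \ t := fun x hx => Finset.mem_sdiff.2
    ⟨Finset.mem_union_right _ hx, fun h => Finset.disjoint_right.1 hd hx (h2 h)⟩
  refine ⟨t, g', α, β + g, h1, h2.trans Finset.subset_union_left, h3.trans_le
    (Finset.card_le_card (Finset.inter_subset_inter_right hV)), h4.mono hs1,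
    (h5.mono hs1).add (hg.mono hs2), ?_⟩
  rw [h6, add_assoc]

theorem Big.mul {c : ℕ} {s s' V V' : Finset (Fin n)} {f g : MvPolynomial (Fin n) ℂ}
    (h : Big B c s V f) (hd : Disjoint s s') (hV : V ⊆ V') (hg : Supp s' g) :
    Big B c (s ∪ s') V' (f * g) := by
  obtain ⟨t, g', α, β, h1, h2, h3, h4, h5, h6⟩ := h
  have hs1 : s \ t ⊆ (s ∪ s') \ t :=
    Finset.sdiff_subset_sdiff Finset.subset_union_left (Finset.Subset.refl _)
  have hs2 : s' ⊆ (s ∪ s') \ t := fun x hx => Finset.mem_sdiff.2
    ⟨Finset.mem_union_right _ hx, fun h => Finset.disjoint_right.1 hd hx (h2 h)⟩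
  refine ⟨t, g', α * g, β * g, h1, h2.trans Finset.subset_union_left, h3.trans_le
    (Finset.card_le_card (Finset.inter_subset_inter_right hV)),
    (h4.mono hs1).mul (hg.mono hs2), (h5.mono hs1).mul (hg.mono hs2), ?_⟩
  rw [h6]
  ring

theorem cat_clo (hBs : ∀ s f, B s f → Supp s f)
    (hp : ∀ (s : Finset (Fin n)) (f : MvPolynomial (Fin n) ℂ), Clo B s f → f ≠ 0 →
    aeval p f ≠ 0) {c : ℕ} (hc : 1 ≤ c) (S : Finset (Fin n)) {s : Finset (Fin n)}
    {f : MvPolynomial (Fin n) ℂ} (hf : Clo B s f) :
    ∀ V ⊆ s, V.Nonempty → Big B c s V f ∨ Cat p c s V (res p S f) := by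
  classical
  induction hf with
  | @base s f h =>
    intro V hV hne
    by_cases hcV : c < V.card
    · left
      refine ⟨s, f, C 1, C 0, h, Finset.Subset.refl s, ?_, Supp.const _ 1, Supp.const _ 0, ?_⟩
      · rwa [Finset.inter_eq_left.2 hV]
      · rw [C_1, C_0, one_mul, add_zero]
    · right
      obtain ⟨i, hi⟩ := hne
      refine ⟨[i], fun _ => uni (res p S f), List.nodup_singleton i,
        fun v hv => (List.mem_singleton.1 hv) ▸ hi, List.cons_ne_nil _ _, ?_, ?_, ?_, ?_⟩
      · rw [List.length_singleton, Nat.sub_self, pow_zero, mul_one]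
        exact not_lt.1 hcV
      · intro w _
        rw [uni_det, map_one]
        exact one_ne_zero
      · intro w hw v hvw hv
        apply uni_map
        rw [List.mem_singleton] at hw
        subst hw
        apply EA_res_supp p S (hBs _ _ h)
        rcases hv with hv | hv
        · exact absurd (List.mem_singleton.1 hv) hvw
        · exact hv
      · rw [List.map_singleton, List.prod_singleton, uni_mulVec, zero_add]
  | const s a =>
    intro V hV hne
    right
    exact Cat.inv p hc hne fun v _ => EA_res_supp p S (Supp.const ∅ a) (Finset.notMem_empty v)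
  | @add s t f g hst hf hg ihf ihg =>
    intro V hV hne
    have hVe : V = (V ∩ s) ∪ (V ∩ t) := by
      rw [← Finset.inter_union_distrib_left, Finset.inter_eq_left.2 hV]
    rcases le_total (V ∩ t).card (V ∩ s).card with hc' | hc'
    · have hne' : (V ∩ s).Nonempty := by
        rw [Finset.nonempty_iff_ne_empty]
        intro h0
        rw [h0, Finset.card_empty, Nat.le_zero, Finset.card_eq_zero] at hc'
        rw [h0, hc', Finset.empty_union] at hVe
        exact hne.ne_empty hVe
      rcases ihf _ Finset.inter_subset_right hne' with h | h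
      · left
        exact h.add hst Finset.inter_subset_left (hg.supp hBs)
      right
      rw [hVe]
      refine Cat.step p hst Finset.inter_subset_right Finset.inter_subset_right hc' h
        (uni (res p S g)) ?_ ?_ ?_
      · rw [uni_det, map_one]
        exact one_ne_zero
      · intro v hv
        exact uni_map p _ _ (EA_res_supp p S (hg.supp hBs) hv)
      · rw [uni_mulVec, map_add]
    · have hne' : (V ∩ t).Nonempty := by
        rw [Finset.nonempty_iff_ne_empty]
        intro h0
        rw [h0, Finset.card_empty, Nat.le_zero, Finset.card_eq_zero] at hc'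
        rw [h0, hc', Finset.empty_union] at hVe
        exact hne.ne_empty hVe
      rcases ihg _ Finset.inter_subset_right hne' with h | h
      · left
        rw [Finset.union_comm, add_comm]
        exact h.add hst.symm Finset.inter_subset_left (hf.supp hBs)
      right
      rw [hVe, Finset.union_comm s t, Finset.union_comm (V ∩ s)]
      refine Cat.step p hst.symm Finset.inter_subset_right Finset.inter_subset_right hc' h
        (uni (res p S f)) ?_ ?_ ?_
      · rw [uni_det, map_one]
        exact one_ne_zero
      · intro v hv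
        exact uni_map p _ _ (EA_res_supp p S (hf.supp hBs) hv)
      · rw [uni_mulVec, map_add, add_comm]
  | @mul s t f g hst hf hg ihf ihg =>
    intro V hV hne
    by_cases hfg : f * g = 0
    · right
      rw [hfg, map_zero]
      exact Cat.inv p hc hne fun v _ => map_zero _
    have hf0 : f ≠ 0 := left_ne_zero_of_mul hfg
    have hg0 : g ≠ 0 := right_ne_zero_of_mul hfg
    have hVe : V = (V ∩ s) ∪ (V ∩ t) := by
      rw [← Finset.inter_union_distrib_left, Finset.inter_eq_left.2 hV]
    rcases le_total (V ∩ t).card (V ∩ s).card with hc' | hc'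
    · have hne' : (V ∩ s).Nonempty := by
        rw [Finset.nonempty_iff_ne_empty]
        intro h0
        rw [h0, Finset.card_empty, Nat.le_zero, Finset.card_eq_zero] at hc'
        rw [h0, hc', Finset.empty_union] at hVe
        exact hne.ne_empty hVe
      rcases ihf _ Finset.inter_subset_right hne' with h | h
      · left
        exact h.mul hst Finset.inter_subset_left (hg.supp hBs)
      right
      rw [hVe]
      refine Cat.step p hst Finset.inter_subset_right Finset.inter_subset_right hc' h
        (dia (res p S g)) ?_ ?_ ?_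
      · rw [dia_det, ev_res]
        exact hp _ _ hg hg0
      · intro v hv
        exact dia_map p _ _ (EA_res_supp p S (hg.supp hBs) hv)
      · rw [dia_mulVec, map_mul]
    · have hne' : (V ∩ t).Nonempty := by
        rw [Finset.nonempty_iff_ne_empty]
        intro h0
        rw [h0, Finset.card_empty, Nat.le_zero, Finset.card_eq_zero] at hc'
        rw [h0, hc', Finset.empty_union] at hVe
        exact hne.ne_empty hVe
      rcases ihg _ Finset.inter_subset_right hne' with h | h
      · left
        rw [Finset.union_comm, mul_comm]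
        exact h.mul hst.symm Finset.inter_subset_left (hf.supp hBs)
      right
      rw [hVe, Finset.union_comm s t, Finset.union_comm (V ∩ s)]
      refine Cat.step p hst.symm Finset.inter_subset_right Finset.inter_subset_right hc' h
        (dia (res p S f)) ?_ ?_ ?_
      · rw [dia_det, ev_res]
        exact hp _ _ hf hf0
      · intro v hv
        exact dia_map p _ _ (EA_res_supp p S (hf.supp hBs) hv)
      · rw [dia_mulVec, map_mul, mul_comm]

end

end Pool.Agent.Helper91.Ov
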