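import Mathlib
import Pool.Agent.Helper91.RO.Sel
import Pool.Agent.Helper91.Ov.Cat

/-!
# Representations along long sequences of variables and bounded support
-/

set_option autoImplicit false
set_option linter.unusedSectionVars false

namespace Pool.Agent.Helper91.Ov

open MvPolynomial
open Pool.Agent.Helper91.RO (res EA ev ev_res exists_mono sublist_of_subset EA_res res_univ)

variable {n : ℕ} {F : Type*} [Field F] [Algebra ℂ F] (p : Fin n → F)

/-- Every increasing list of length at least `β N` contains a list of length `N` along which the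
polynomial, restricted to `S`, is a product of matrices of size `w`. -/
def RP (w : ℕ) (β : ℕ → ℕ) (f : MvPolynomial (Fin n) ℂ) : Prop :=
  ∀ (S : Finset (Fin n)) (N : ℕ) (L : List (Fin n)), L.Pairwise (· < ·) → β N ≤ L.length →
    ∃ L' : List (Fin n), L'.Sublist L ∧ L'.length = N ∧ Rep p w L' (res p S f)

theorem nodup_of_lt {L : List (Fin n)} (hL : L.Pairwise (· < ·)) : L.Nodup :=
  hL.imp fun h => ne_of_lt h

theorem rep_mono {w N : ℕ} {L : List (Fin n)} (hL : L.Nodup) {R : MvPolynomial (Fin n) F}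
    (h : Rep p w L R) (hN : 2 ^ (2 * N) ≤ L.length) :
    ∃ L' : List (Fin n), (∀ v ∈ L', v ∈ L) ∧ L'.Pairwise (· < ·) ∧ L'.length = N ∧
      Rep p w L' R := by
  rcases exists_mono (N + N) N N rfl L hL (by rwa [← two_mul]) with ⟨l, h2, h3, h4⟩ | ⟨l, h2, h3, h4⟩
  · exact ⟨l, fun v hv => h2.subset hv, h3, h4, h.sublist p hL h2⟩
  · refine ⟨l.reverse, fun v hv => h2.subset (List.mem_reverse.1 hv), ?_, ?_,
      (h.sublist p hL h2).reverse p⟩
    · rw [List.pairwise_reverse]
      exact h3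
    · rw [List.length_reverse, h4]

theorem filter_length (L : List (Fin n)) (s : Finset (Fin n)) :
    (L.filter (fun y => y ∉ s)).length + (L.filter (fun y => y ∈ s)).length = L.length := by
  have := List.length_eq_length_filter_add (l := L) (fun y => decide (y ∉ s))
  rw [this]
  congr 2
  apply List.filter_congr
  intro y _
  simp

/-- Many variables which do not occur. -/
theorem rep_outside {w : ℕ} (hw : 1 ≤ w) (S : Finset (Fin n)) {s : Finset (Fin n)}
    {f : MvPolynomial (Fin n) ℂ} (hf : Supp s f) {N : ℕ} {L : List (Fin n)}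
    (h1 : N ≤ (L.filter (fun y => y ∉ s)).length) :
    ∃ L' : List (Fin n), L'.Sublist L ∧ L'.length = N ∧ Rep p w L' (res p S f) := by
  have hsub : ((L.filter (fun y => y ∉ s)).take N).Sublist L :=
    (List.take_sublist _ _).trans List.filter_sublist
  refine ⟨(L.filter (fun y => y ∉ s)).take N, hsub, ?_, ?_⟩
  · rw [List.length_take]
    omega
  · apply (rep_const p _ ?_).weaken p hw
    intro v hv
    have h2 := List.mem_filter.1 ((List.take_sublist _ _).subset hv)
    exact EA_res_supp p S hf (by simpa using h2.2)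

theorem rp_leaf {k : ℕ} {s : Finset (Fin n)} {f : MvPolynomial (Fin n) ℂ} (h : Leaf k s f) :
    RP p 1 (fun N => N + k) f := by
  classical
  obtain ⟨t, _, ht, hf⟩ := h
  intro S N L hL hN
  apply rep_outside p le_rfl S hf
  have h1 := filter_length L t
  have h2 : (L.filter (fun y => y ∈ t)).length ≤ k := by
    rw [← List.toFinset_card_of_nodup ((nodup_of_lt hL).sublist List.filter_sublist)]
    refine le_trans (Finset.card_le_card ?_) ht
    intro x hx
    rw [List.mem_toFinset, List.mem_filter] at hx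
    simpa using hx.2
  dsimp only at hN
  omega

/-- Read-once formulas over blocks. -/
theorem rp_clo {B : Finset (Fin n) → MvPolynomial (Fin n) ℂ → Prop}
    (hBs : ∀ s f, B s f → Supp s f) {w : ℕ} {β : ℕ → ℕ} (hB : ∀ s f, B s f → RP p w β f)
    (hβ : ∀ N, N ≤ β N)
    (hp : ∀ (s : Finset (Fin n)) (f : MvPolynomial (Fin n) ℂ), Clo B s f → f ≠ 0 →
    aeval p f ≠ 0) {w' : ℕ} (hw : w + 1 ≤ w') (hw2 : 2 ≤ w') {s : Finset (Fin n)}
    {f : MvPolynomial (Fin n) ℂ} (hf : Clo B s f) :
    RP p w' (fun N => 2 * ((β N + 1) * 2 ^ (2 ^ (2 * N)))) f := by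
  classical
  intro S N L hL hN
  have hnd : L.Nodup := nodup_of_lt hL
  set c := β N + 1 with hc
  set Y := c * 2 ^ (2 ^ (2 * N)) with hY
  have hsum := filter_length L s
  have hpos : 0 < 2 ^ (2 ^ (2 * N)) := Nat.two_pow_pos _
  have hcY : c ≤ Y := Nat.le_mul_of_pos_right _ hpos
  by_cases h1 : Y ≤ (L.filter (fun y => y ∉ s)).length
  · apply rep_outside p (le_trans (by norm_num) hw2) S (hf.supp hBs)
    have := hβ N
    omega
  have hN' : 2 * Y ≤ L.length := hN
  have h2 : Y ≤ (L.filter (fun y => y ∈ s)).length := by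
    omega
  set V : Finset (Fin n) := (L.filter (fun y => y ∈ s)).toFinset with hV
  have hVc : V.card = (L.filter (fun y => y ∈ s)).length :=
    List.toFinset_card_of_nodup (hnd.sublist List.filter_sublist)
  have hVs : V ⊆ s := by
    intro v hv
    rw [hV, List.mem_toFinset, List.mem_filter] at hv
    simpa using hv.2
  have hVL : ∀ v ∈ V, v ∈ L := by
    intro v hv
    rw [hV, List.mem_toFinset, List.mem_filter] at hv
    exact hv.1
  have hne : V.Nonempty := by
    rw [← Finset.card_pos, hVc]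
    omega
  rcases cat_clo p hBs hp (c := c) (by omega) S hf V hVs hne with
    ⟨t, g, α, β', g1, g2, g3, g4, g5, g6⟩ | hcat
  · -- one big block
    have h3 : (L.filter (fun y => y ∈ V ∩ t)).Sublist L := List.filter_sublist
    have h4 : β N ≤ (L.filter (fun y => y ∈ V ∩ t)).length := by
      rw [← List.toFinset_card_of_nodup (hnd.sublist h3)]
      have h5 : V ∩ t ⊆ (L.filter (fun y => y ∈ V ∩ t)).toFinset := by
        intro x hx
        rw [List.mem_toFinset, List.mem_filter]
        exact ⟨hVL x (Finset.mem_inter.1 hx).1, by simpa using hx⟩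
      have := Finset.card_le_card h5
      omega
    obtain ⟨L', h6, h7, h8⟩ := hB t g g1 S N _ (hL.sublist h3) h4
    have hLt : ∀ v ∈ L', v ∈ t := by
      intro v hv
      have h9 := List.mem_filter.1 (h6.subset hv)
      have h10 : v ∈ V ∩ t := by simpa using h9.2
      exact (Finset.mem_inter.1 h10).2
    refine ⟨L', h6.trans h3, h7, ?_⟩
    rw [g6, map_add, map_mul]
    refine (h8.affine p ?_ ?_).weaken p hw
    · exact fun v hv => EA_res_supp p S g4 fun h => (Finset.mem_sdiff.1 h).2 (hLt v hv)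
    · exact fun v hv => EA_res_supp p S g5 fun h => (Finset.mem_sdiff.1 h).2 (hLt v hv)
  · obtain ⟨L1, g1, g2, g3, g4, g5⟩ := hcat.rep
    have h3 : 2 ^ (2 * N) ≤ L1.length := by
      have h4 : c * 2 ^ (2 ^ (2 * N)) ≤ c * 2 ^ (L1.length - 1) := by
        rw [hVc] at g4
        exact h2.trans g4
      have h4' := Nat.le_of_mul_le_mul_left h4 (by omega)
      have h5 := (Nat.pow_le_pow_iff_right (by norm_num : 1 < 2)).1 h4'
      omega
    obtain ⟨L', k1, k2, k3, k4⟩ := rep_mono p g1 g5 h3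
    exact ⟨L', sublist_of_subset (fun v hv => hVL v (g2 v (k1 v hv))) k2 hL, k3, k4.weaken p hw2⟩

/-- Sums and products of two polynomials. -/
theorem rp_blk {Q : Finset (Fin n) → MvPolynomial (Fin n) ℂ → Prop} {w : ℕ} (hw : 2 ≤ w)
    {β : ℕ → ℕ} (hQ : ∀ s f, Q s f → RP p w β f) {s : Finset (Fin n)}
    {f : MvPolynomial (Fin n) ℂ} (hf : Blk Q s f) : RP p (w ^ 2) (fun N => β (β N)) f := by
  obtain ⟨g, h, hg, hh, hf⟩ := hf
  intro S N L hL hN
  obtain ⟨L1, a1, a2, a3⟩ := hQ s g hg S (β N) L hL hN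
  obtain ⟨L2, b1, b2, b3⟩ := hQ s h hh S N L1 (hL.sublist a1) a2.ge
  have hL1 : L1.Nodup := nodup_of_lt (hL.sublist a1)
  have a4 := a3.sublist p hL1 b1
  refine ⟨L2, b1.trans a1, b2, ?_⟩
  rcases hf with rfl | rfl
  · rw [map_add]
    exact (a4.add p b3).weaken p (by nlinarith)
  · rw [map_mul]
    exact (a4.mul p b3).weaken p (by rw [sq])

/-- The width. -/
def wd : ℕ → ℕ
  | 0 => 2
  | Δ + 1 => wd Δ ^ 2 + 1

/-- The loss. -/
def loss (k : ℕ) : ℕ → ℕ → ℕ
  | 0, N => 2 * ((N + k + 1) * 2 ^ (2 ^ (2 * N)))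
  | Δ + 1, N => 2 * ((loss k Δ (loss k Δ N) + 1) * 2 ^ (2 ^ (2 * N)))

theorem two_le_wd (Δ : ℕ) : 2 ≤ wd Δ := by
  induction Δ with
  | zero => exact le_rfl
  | succ Δ ih =>
    rw [wd]
    nlinarith

theorem le_loss (k Δ : ℕ) : ∀ N, N ≤ loss k Δ N := by
  induction Δ with
  | zero =>
    intro N
    rw [loss]
    have := Nat.le_mul_of_pos_right (N + k + 1) (Nat.two_pow_pos (2 ^ (2 * N)))
    omega
  | succ Δ ih =>
    intro N
    rw [loss]
    have := Nat.le_mul_of_pos_right (loss k Δ (loss k Δ N) + 1) (Nat.two_pow_pos (2 ^ (2 * N)))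
    have h1 := ih N
    have h2 := ih (loss k Δ N)
    omega

theorem od_rp {k Δ : ℕ} (hp : ∀ (s : Finset (Fin n)) (f : MvPolynomial (Fin n) ℂ), OD k Δ s f →
    f ≠ 0 → aeval p f ≠ 0) {s : Finset (Fin n)} {f : MvPolynomial (Fin n) ℂ} (hf : OD k Δ s f) :
    RP p (wd Δ) (loss k Δ) f := by
  induction Δ generalizing s f with
  | zero =>
    exact rp_clo p (B := Leaf k) (fun s f h => Leaf.supp h) (fun s f h => rp_leaf p h)
      (fun N => Nat.le_add_right N k) hp (w' := wd 0) le_rfl le_rfl hf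
  | succ Δ ih =>
    have ih' : ∀ (s : Finset (Fin n)) (f : MvPolynomial (Fin n) ℂ), OD k Δ s f →
        RP p (wd Δ) (loss k Δ) f := fun s f h => ih (fun s f h h0 => hp s f h.succ h0) h
    exact rp_clo p (B := Blk (OD k Δ)) (fun s f h => Blk.supp (fun s f h => OD.supp h) h)
      (fun s f h => rp_blk p (two_le_wd Δ) ih' h)
      (fun N => (le_loss k Δ N).trans (le_loss k Δ _)) hp (w' := wd (Δ + 1)) le_rfl
      (two_le_wd _) hf

theorem RP.sub_const {w : ℕ} {β : ℕ → ℕ} {f : MvPolynomial (Fin n) ℂ} (h : RP p w β f) (c : ℂ) :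
    RP p (w + 1) β (f - C c) := by
  intro S N L hL hN
  obtain ⟨L', h1, h2, h3⟩ := h S N L hL hN
  refine ⟨L', h1, h2, ?_⟩
  have h4 := h3.affine p (α := 1) (β := - res p S (C c)) (fun v _ => map_one _) (fun v _ => by
    rw [map_neg, EA_res_supp p S (Supp.const ∅ c) (Finset.notMem_empty v)])
  rw [one_mul, ← sub_eq_add_neg, ← map_sub] at h4
  exact h4

theorem many_rp {w : ℕ} {β : ℕ → ℕ} (S : Finset (Fin n)) (q : ℕ) :
    ∀ (f : Fin q → MvPolynomial (Fin n) ℂ), (∀ i, RP p w β (f i)) → ∀ (N : ℕ) (L : List (Fin n)),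
    L.Pairwise (· < ·) → β^[q] N ≤ L.length →
    ∃ L' : List (Fin n), L'.Sublist L ∧ L'.length = N ∧ ∀ i, Rep p w L' (res p S (f i)) := by
  induction q with
  | zero =>
    intro f hf N L hL hN
    refine ⟨L.take N, List.take_sublist N L, ?_, fun i => i.elim0⟩
    rw [List.length_take]
    exact min_eq_left hN
  | succ q ih =>
    intro f hf N L hL hN
    rw [Function.iterate_succ_apply] at hN
    obtain ⟨L1, h1, h3, h4⟩ := ih (fun i => f i.castSucc) (fun i => hf _) (β N) L hL hN
    have hL1 := hL.sublist h1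
    obtain ⟨L2, g1, g3, g4⟩ := hf (Fin.last q) S N L1 hL1 h3.ge
    refine ⟨L2, g1.trans h1, g3, ?_⟩
    intro i
    refine Fin.lastCases g4 (fun j => ?_) i
    exact (h4 j).sublist p (nodup_of_lt hL1) g1

theorem rp_det {t w : ℕ} {β : ℕ → ℕ} (A : Matrix (Fin t) (Fin t) (MvPolynomial (Fin n) ℂ))
    (hA : ∀ i j, RP p w β (A i j)) : RP p (t.factorial * w ^ t) (β^[t * t]) A.det := by
  intro S N L hL hN
  obtain ⟨L', h1, h2, h3⟩ := many_rp p S (t * t)
    (fun x => A (finProdFinEquiv.symm x).1 (finProdFinEquiv.symm x).2) (fun x => hA _ _) N L hL hN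
  refine ⟨L', h1, h2, ?_⟩
  rw [AlgHom.map_det]
  apply rep_det
  intro i j
  have h4 := h3 (finProdFinEquiv (i, j))
  rw [Equiv.symm_apply_apply] at h4
  exact h4

/-- **Bounded support.** -/
theorem RP.bounded_support {w : ℕ} {β : ℕ → ℕ} {f : MvPolynomial (Fin n) ℂ} (h : RP p w β f)
    (h0 : f ≠ 0) (J : Finset (Fin n)) :
    ∃ S, J ⊆ S ∧ S.card ≤ J.card + β w ∧ res p S f ≠ 0 := by
  classical
  have hex : ∃ c : ℕ, ∃ S : Finset (Fin n), J ⊆ S ∧ S.card = c ∧ res p S f ≠ 0 := by
    refine ⟨_, Finset.univ, Finset.subset_univ J, rfl, ?_⟩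
    rw [res_univ]
    intro h
    exact h0 (MvPolynomial.map_injective _ (algebraMap ℂ F).injective (h.trans (map_zero _).symm))
  obtain ⟨S, hJS, hSc, hS⟩ := Nat.find_spec hex
  have hmin : ∀ T : Finset (Fin n), J ⊆ T → T.card < S.card → res p T f = 0 := by
    intro T hT hc
    by_contra hne
    rw [hSc] at hc
    exact Nat.find_min hex hc ⟨T, hT, rfl, hne⟩
  refine ⟨S, hJS, ?_, hS⟩
  by_contra hcon
  push Not at hcon
  have hcard : β w ≤ ((S \ J).sort (· ≤ ·)).length := by
    rw [Finset.length_sort, Finset.card_sdiff_of_subset hJS]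
    omega
  have hsort : ((S \ J).sort (· ≤ ·)).Pairwise (· < ·) :=
    (Finset.sortedLT_sort (S \ J)).pairwise
  obtain ⟨L, h1, h3, h4⟩ := h S w _ hsort hcard
  have hL : ∀ v ∈ L, v ∈ S ∧ v ∉ J := fun v hv =>
    Finset.mem_sdiff.1 ((Finset.mem_sort _).1 (h1.subset hv))
  apply hS
  refine h4.kill p (nodup_of_lt (hsort.sublist h1)) h3.ge ?_
  intro v hv
  rw [EA_res]
  apply hmin
  · intro x hx
    refine Finset.mem_erase.2 ⟨?_, hJS hx⟩
    rintro rfl
    exact (hL x hv).2 hx
  · exact Finset.card_erase_lt_of_mem (hL v hv).1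

end Pool.Agent.Helper91.Ov
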