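import Mathlib
import Pool.Agent.Helper28.D4.Hit
import Pool.Agent.Helper91.Ov.Def

/-!
# The pole argument: nonconstant read-once compositions stay nonconstant
-/

set_option autoImplicit false
set_option linter.unusedSectionVars false

namespace Pool.Agent.Helper91.Ov

open MvPolynomial
open Pool.Agent.Helper28.D4 (G map_G)

/-- The ring of the seeds. -/
abbrev PP (m : ℕ) := MvPolynomial (Fin m ⊕ Fin m) ℂ

/-- The generator with `m` seeds. -/
noncomputable def gp (n m : ℕ) (l : Fin n) : PP m :=
  G n m (fun j => X (Sum.inl j)) (fun j => X (Sum.inr j)) l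

/-- The field of the seeds. -/
abbrev KP (m : ℕ) := FractionRing (PP m)

section

variable {n m : ℕ}

/-- The seeds as elements of the field. -/
noncomputable def zK (j : Fin m) : KP m := algebraMap (PP m) (KP m) (X (Sum.inl j))

/-- The seeds as elements of the field. -/
noncomputable def wK (j : Fin m) : KP m := algebraMap (PP m) (KP m) (X (Sum.inr j))

/-- Coercion. -/
noncomputable def cp : Polynomial (KP m) →+* PowerSeries (KP m) := Polynomial.coeToPowerSeries.ringHom

theorem cp_injective : Function.Injective (cp (m := m)) := Polynomial.coe_injective _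

/-- The linear polynomial `t + w_j - l`. -/
noncomputable def lin (j : Fin m) (l : Fin n) : Polynomial (KP m) :=
  Polynomial.X - Polynomial.C (((l : ℕ) : KP m) - wK j)

theorem sub_ne (i j : Fin m) {u v : Fin n} (huv : u ≠ v) :
    ((u : ℕ) : KP m) - wK i ≠ ((v : ℕ) : KP m) - wK j := by
  intro h
  have h1 : algebraMap (PP m) (KP m) (((u : ℕ) : PP m) - X (Sum.inr i)) =
      algebraMap (PP m) (KP m) (((v : ℕ) : PP m) - X (Sum.inr j)) := by
    rw [map_sub, map_sub, map_natCast, map_natCast]
    exact h
  have h2 := IsFractionRing.injective (PP m) (KP m) h1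
  have h3 := congrArg MvPolynomial.constantCoeff h2
  rw [map_sub, map_sub, map_natCast, map_natCast, constantCoeff_X, constantCoeff_X, sub_zero,
    sub_zero] at h3
  exact huv (Fin.ext (by exact_mod_cast h3))

theorem wK_ne (j : Fin m) (l : Fin n) : wK j - ((l : ℕ) : KP m) ≠ 0 := by
  intro h
  have h1 : algebraMap (PP m) (KP m) (X (Sum.inr j) - ((l : ℕ) : PP m)) = 0 := by
    rw [map_sub, map_natCast]
    exact h
  have h2 : X (Sum.inr j) - ((l : ℕ) : PP m) = 0 :=
    IsFractionRing.injective (PP m) (KP m) (h1.trans (map_zero _).symm)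
  have h3 := congrArg (MvPolynomial.eval fun _ => (((l : ℕ) : ℂ) + 1)) h2
  rw [map_sub, map_natCast, eval_X, map_zero] at h3
  have h4 : (1 : ℂ) = 0 := by linear_combination h3
  exact one_ne_zero h4

/-- The denominators. -/
noncomputable def DD (m : ℕ) (s : Finset (Fin n)) : Polynomial (KP m) := ∏ l ∈ s, ∏ j, lin j l

theorem DD_monic (s : Finset (Fin n)) : (DD m s).Monic :=
  Polynomial.monic_prod_of_monic _ _ fun _ _ =>
    Polynomial.monic_prod_of_monic _ _ fun _ _ => Polynomial.monic_X_sub_C _

theorem DD_union {s t : Finset (Fin n)} (h : Disjoint s t) : DD m (s ∪ t) = DD m s * DD m t :=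
  Finset.prod_union h

theorem DD_coprime {s t : Finset (Fin n)} (h : Disjoint s t) : IsCoprime (DD m s) (DD m t) := by
  apply IsCoprime.prod_left
  intro u hu
  apply IsCoprime.prod_right
  intro v hv
  apply IsCoprime.prod_left
  intro i _
  apply IsCoprime.prod_right
  intro j _
  apply Polynomial.isCoprime_X_sub_C_of_isUnit_sub
  rw [isUnit_iff_ne_zero, sub_ne_zero]
  apply sub_ne
  rintro rfl
  exact Finset.disjoint_left.1 h hu hv

/-- Poles in `s`, vanishing at infinity. -/
def KK (s : Finset (Fin n)) (y : PowerSeries (KP m)) : Prop :=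
  ∃ (M : ℕ) (N : Polynomial (KP m)), y * cp (DD m s ^ M) = cp N ∧
    N.degree < (DD m s ^ M).degree

theorem degree_pow_ne (s : Finset (Fin n)) (M : ℕ) : (DD m s ^ M).degree ≠ ⊥ := by
  rw [Ne, Polynomial.degree_eq_bot]
  exact pow_ne_zero _ (DD_monic s).ne_zero

theorem KK.zero (s : Finset (Fin n)) : KK s (0 : PowerSeries (KP m)) := by
  refine ⟨0, 0, by rw [zero_mul, map_zero], ?_⟩
  rw [Polynomial.degree_zero, bot_lt_iff_ne_bot]
  exact degree_pow_ne s 0

theorem KK.smul {s : Finset (Fin n)} {y : PowerSeries (KP m)} (h : KK s y) (c : KP m) :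
    KK s (PowerSeries.C c * y) := by
  obtain ⟨M, N, h1, h2⟩ := h
  refine ⟨M, Polynomial.C c * N, ?_, lt_of_le_of_lt ?_ h2⟩
  · rw [mul_assoc, h1, map_mul]
    congr 1
    exact (Polynomial.coe_C c).symm
  · rw [Polynomial.degree_mul]
    rcases eq_or_ne c 0 with rfl | hc
    · rw [map_zero, Polynomial.degree_zero, WithBot.bot_add]
      exact bot_le
    · rw [Polynomial.degree_C hc, zero_add]

theorem KK.mono {s t : Finset (Fin n)} {y : PowerSeries (KP m)} (h : KK s y) (hst : s ⊆ t) :
    KK t y := by
  classical
  obtain ⟨M, N, h1, h2⟩ := h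
  have e : DD m t = DD m s * DD m (t \ s) := by
    rw [← DD_union Finset.disjoint_sdiff, Finset.union_sdiff_of_subset hst]
  refine ⟨M, N * DD m (t \ s) ^ M, ?_, ?_⟩
  · rw [e, mul_pow, map_mul, map_mul, ← mul_assoc, h1]
  · rw [e, mul_pow, Polynomial.degree_mul, Polynomial.degree_mul]
    exact WithBot.add_lt_add_right (degree_pow_ne _ _) h2

/-- Raising the exponent. -/
theorem KK.up {s : Finset (Fin n)} {y : PowerSeries (KP m)} {M : ℕ} {N : Polynomial (KP m)}
    (h1 : y * cp (DD m s ^ M) = cp N) (h2 : N.degree < (DD m s ^ M).degree) (k : ℕ) :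
    y * cp (DD m s ^ (M + k)) = cp (N * DD m s ^ k) ∧
      (N * DD m s ^ k).degree < (DD m s ^ (M + k)).degree := by
  constructor
  · rw [pow_add, map_mul, map_mul, ← mul_assoc, h1]
  · rw [pow_add, Polynomial.degree_mul, Polynomial.degree_mul]
    exact WithBot.add_lt_add_right (degree_pow_ne _ _) h2

theorem KK.add {s : Finset (Fin n)} {a b : PowerSeries (KP m)} (ha : KK s a) (hb : KK s b) :
    KK s (a + b) := by
  obtain ⟨M, N, h1, h2⟩ := ha
  obtain ⟨M', N', h1', h2'⟩ := hb
  obtain ⟨h3, h4⟩ := KK.up h1 h2 M'
  obtain ⟨h5, h6⟩ := KK.up h1' h2' M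
  rw [add_comm M' M] at h5 h6
  refine ⟨M + M', N * DD m s ^ M' + N' * DD m s ^ M, ?_, ?_⟩
  · rw [add_mul, h3, h5, map_add]
  · exact lt_of_le_of_lt (Polynomial.degree_add_le _ _) (max_lt h4 h6)

theorem KK.mul {s : Finset (Fin n)} {a b : PowerSeries (KP m)} (ha : KK s a) (hb : KK s b) :
    KK s (a * b) := by
  obtain ⟨M, N, h1, h2⟩ := ha
  obtain ⟨M', N', h1', h2'⟩ := hb
  refine ⟨M + M', N * N', ?_, ?_⟩
  · rw [pow_add, map_mul, map_mul, mul_mul_mul_comm, h1, h1']
  · rw [pow_add, Polynomial.degree_mul, Polynomial.degree_mul]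
    rcases eq_or_ne N 0 with rfl | h0
    · rw [Polynomial.degree_zero, WithBot.bot_add, bot_lt_iff_ne_bot, ← Polynomial.degree_mul,
        ← pow_add]
      exact degree_pow_ne _ _
    · have h8 : N.degree ≠ ⊥ := by rwa [Ne, Polynomial.degree_eq_bot]
      exact (WithBot.add_lt_add_left h8 h2').trans
        (WithBot.add_lt_add_right (degree_pow_ne _ _) h2)

/-- Disjoint poles do not cancel. -/
theorem KK.disj {s t : Finset (Fin n)} {a b : PowerSeries (KP m)} (ha : KK s a)
    (hb : KK t b) (hst : Disjoint s t) (h : a + b = 0) : a = 0 := by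
  obtain ⟨M, N, h1, h2⟩ := ha
  obtain ⟨M', N', h1', h2'⟩ := hb
  have h3 : N * DD m t ^ M' = -(N' * DD m s ^ M) := by
    apply cp_injective
    have e : b = -a := by linear_combination h
    rw [e] at h1'
    rw [map_mul, ← h1, map_neg, map_mul, ← h1']
    ring
  have h4 : DD m s ^ M ∣ N := by
    have h5 : IsCoprime (DD m s ^ M) (DD m t ^ M') := (DD_coprime hst).pow
    apply h5.dvd_of_dvd_mul_right
    rw [h3]
    exact (Dvd.intro_left _ rfl).neg_right
  have h5 : N = 0 := Polynomial.eq_zero_of_dvd_of_degree_lt h4 h2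
  rw [h5, map_zero] at h1
  refine (mul_eq_zero.1 h1).resolve_right ?_
  intro h6
  exact pow_ne_zero M (DD_monic s).ne_zero (cp_injective (h6.trans (map_zero _).symm))

/-- The product of all linear factors. -/
noncomputable def allLin (n : ℕ) (j : Fin m) : PowerSeries (KP m) := ∏ l : Fin n, cp (lin j l)

theorem constantCoeff_lin (j : Fin m) (l : Fin n) :
    PowerSeries.constantCoeff (cp (lin j l)) = wK j - ((l : ℕ) : KP m) := by
  have h : PowerSeries.constantCoeff (cp (lin j l)) = (lin j l).coeff 0 :=
    Polynomial.constantCoeff_coe (lin j l)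
  rw [h, lin, Polynomial.coeff_sub, Polynomial.coeff_X_zero, Polynomial.coeff_C_zero]
  ring

theorem constantCoeff_allLin (j : Fin m) :
    PowerSeries.constantCoeff (allLin n j) = ∏ l : Fin n, (wK j - ((l : ℕ) : KP m)) := by
  rw [allLin, map_prod]
  exact Finset.prod_congr rfl fun l _ => constantCoeff_lin j l

theorem constantCoeff_allLin_ne (j : Fin m) : PowerSeries.constantCoeff (allLin n j) ≠ 0 := by
  rw [constantCoeff_allLin, Finset.prod_ne_zero_iff]
  exact fun l _ => wK_ne j l

/-- The shifted seeds. -/
noncomputable def psi (n m : ℕ) : PP m →ₐ[ℂ] PowerSeries (KP m) :=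
  aeval (Sum.elim
    (fun j => PowerSeries.C (zK j * ∏ l : Fin n, (wK j - ((l : ℕ) : KP m))) * (allLin n j)⁻¹)
    (fun j => PowerSeries.X + PowerSeries.C (wK j)))

theorem psi_inl (j : Fin m) : psi n m (X (Sum.inl j)) =
    PowerSeries.C (zK j * ∏ l : Fin n, (wK j - ((l : ℕ) : KP m))) * (allLin n j)⁻¹ := by
  rw [psi, aeval_X]
  rfl

theorem psi_inr (j : Fin m) : psi n m (X (Sum.inr j)) =
    PowerSeries.X + PowerSeries.C (wK j) := by
  rw [psi, aeval_X]
  rfl

theorem psi_sub (j : Fin m) (l : Fin n) :
    psi n m (X (Sum.inr j)) - ((l : ℕ) : PowerSeries (KP m)) = cp (lin j l) := by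
  rw [psi_inr, lin, map_sub]
  have h1 : cp (Polynomial.X : Polynomial (KP m)) = PowerSeries.X := Polynomial.coe_X
  have h2 : cp (Polynomial.C (((l : ℕ) : KP m) - wK j)) =
      PowerSeries.C (((l : ℕ) : KP m) - wK j) := Polynomial.coe_C _
  rw [h1, h2, map_sub, map_natCast]
  ring

theorem constantCoeff_psi (f : PP m) :
    PowerSeries.constantCoeff (psi n m f) = algebraMap (PP m) (KP m) f := by
  have h : (PowerSeries.constantCoeff (R := KP m)).comp (psi n m).toRingHom =
      algebraMap (PP m) (KP m) := by
    apply MvPolynomial.ringHom_ext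
    · intro c
      change PowerSeries.constantCoeff (psi n m (C c)) = _
      rw [← MvPolynomial.algebraMap_eq, AlgHom.commutes, PowerSeries.algebraMap_apply,
        PowerSeries.constantCoeff_C, ← IsScalarTower.algebraMap_apply]
    · rintro (j | j)
      · change PowerSeries.constantCoeff (psi n m (X (Sum.inl j))) = _
        rw [psi_inl, map_mul, PowerSeries.constantCoeff_C, PowerSeries.constantCoeff_inv,
          constantCoeff_allLin, mul_inv_cancel_right₀]
        · rfl
        · rw [← constantCoeff_allLin]
          exact constantCoeff_allLin_ne j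
      · change PowerSeries.constantCoeff (psi n m (X (Sum.inr j))) = _
        rw [psi_inr, map_add, PowerSeries.constantCoeff_X, PowerSeries.constantCoeff_C, zero_add]
        rfl
  exact RingHom.congr_fun h f

theorem psi_injective : Function.Injective (psi n m) := by
  intro f g h
  apply IsFractionRing.injective (PP m) (KP m)
  rw [← constantCoeff_psi (n := n), ← constantCoeff_psi (n := n), h]

theorem KK_gp (l : Fin n) : KK {l} (psi n m (gp n m l)) := by
  classical
  refine ⟨1, ∑ j : Fin m, Polynomial.C (zK j * ∏ l : Fin n, (wK j - ((l : ℕ) : KP m))) *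
    ∏ i ∈ Finset.univ.erase j, lin i l, ?_, ?_⟩
  · have h1 : psi n m (gp n m l) = ∑ j : Fin m, psi n m (X (Sum.inl j)) *
        ∏ l' ∈ Finset.univ.erase l, cp (lin j l') := by
      rw [gp, G, map_sum]
      apply Finset.sum_congr rfl
      intro j _
      rw [map_mul, map_prod]
      congr 1
      apply Finset.prod_congr rfl
      intro l' _
      rw [map_sub, map_natCast, psi_sub]
    rw [h1, pow_one, DD, Finset.prod_singleton, map_prod, Finset.sum_mul, map_sum]
    apply Finset.sum_congr rfl
    intro j _
    rw [← Finset.mul_prod_erase Finset.univ (fun i => cp (lin i l)) (Finset.mem_univ j),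
      psi_inl, map_mul cp, map_prod cp]
    have h2 : cp (Polynomial.C (zK j * ∏ l : Fin n, (wK j - ((l : ℕ) : KP m)))) =
        PowerSeries.C (zK j * ∏ l : Fin n, (wK j - ((l : ℕ) : KP m))) := Polynomial.coe_C _
    have h3 : (∏ l' ∈ Finset.univ.erase l, cp (lin j l')) * cp (lin j l) = allLin n j := by
      rw [allLin, Finset.prod_erase_mul _ _ (Finset.mem_univ l)]
    have h4 : (allLin n j)⁻¹ * allLin n j = 1 :=
      PowerSeries.inv_mul_cancel _ (constantCoeff_allLin_ne j)
    rw [h2]
    calc PowerSeries.C (zK j * ∏ l : Fin n, (wK j - ((l : ℕ) : KP m))) * (allLin n j)⁻¹ *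
          (∏ l' ∈ Finset.univ.erase l, cp (lin j l')) *
          (cp (lin j l) * ∏ i ∈ Finset.univ.erase j, cp (lin i l)) =
        PowerSeries.C (zK j * ∏ l : Fin n, (wK j - ((l : ℕ) : KP m))) * ((allLin n j)⁻¹ *
          ((∏ l' ∈ Finset.univ.erase l, cp (lin j l')) * cp (lin j l))) *
          ∏ i ∈ Finset.univ.erase j, cp (lin i l) := by ring
      _ = _ := by rw [h3, h4, mul_one]
  · have hd : (DD m ({l} : Finset (Fin n)) ^ 1).degree = (m : WithBot ℕ) := by
      rw [pow_one, DD, Finset.prod_singleton, Polynomial.degree_prod]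
      simp only [lin, Polynomial.degree_X_sub_C]
      rw [Finset.sum_const, Finset.card_univ, Fintype.card_fin, nsmul_one]
    rw [hd]
    refine (Polynomial.degree_sum_le _ _).trans_lt ((Finset.sup_lt_iff ?_).2 ?_)
    · exact WithBot.bot_lt_coe m
    · intro j _
      refine (Polynomial.degree_mul_le _ _).trans_lt ?_
      rw [Polynomial.degree_prod]
      simp only [lin, Polynomial.degree_X_sub_C]
      rw [Finset.sum_const, Finset.card_erase_of_mem (Finset.mem_univ j), Finset.card_univ,
        Fintype.card_fin, nsmul_one]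
      refine (add_le_add_left Polynomial.degree_C_le _).trans_lt ?_
      rw [zero_add]
      have := j.pos
      exact_mod_cast Nat.sub_lt this Nat.one_pos

/-- The nonconstant part has its poles in `s` and vanishes at infinity. -/
theorem Supp.KK {s : Finset (Fin n)} {f : MvPolynomial (Fin n) ℂ} (hf : Supp s f) :
    KK s (psi n m (aeval (gp n m) f) -
      algebraMap ℂ (PowerSeries (KP m)) (MvPolynomial.constantCoeff f)) := by
  induction hf using Algebra.adjoin_induction with
  | mem x hx =>
    obtain ⟨i, hi, rfl⟩ := hx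
    rw [aeval_X, constantCoeff_X, map_zero, sub_zero]
    exact (KK_gp i).mono (Finset.singleton_subset_iff.2 (Finset.mem_coe.1 hi))
  | algebraMap c =>
    rw [MvPolynomial.algebraMap_eq, constantCoeff_C, ← MvPolynomial.algebraMap_eq,
      AlgHom.commutes, AlgHom.commutes, sub_self]
    exact Ov.KK.zero s
  | add x y _ _ hx hy =>
    have e : psi n m (aeval (gp n m) (x + y)) -
        algebraMap ℂ (PowerSeries (KP m)) (MvPolynomial.constantCoeff (x + y)) =
        (psi n m (aeval (gp n m) x) -
          algebraMap ℂ (PowerSeries (KP m)) (MvPolynomial.constantCoeff x)) +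
        (psi n m (aeval (gp n m) y) -
          algebraMap ℂ (PowerSeries (KP m)) (MvPolynomial.constantCoeff y)) := by
      rw [map_add, map_add, map_add, map_add]
      ring
    rw [e]
    exact hx.add hy
  | mul x y _ _ hx hy =>
    have e : psi n m (aeval (gp n m) (x * y)) -
        algebraMap ℂ (PowerSeries (KP m)) (MvPolynomial.constantCoeff (x * y)) =
        (psi n m (aeval (gp n m) x) -
          algebraMap ℂ (PowerSeries (KP m)) (MvPolynomial.constantCoeff x)) *
        (psi n m (aeval (gp n m) y) -
          algebraMap ℂ (PowerSeries (KP m)) (MvPolynomial.constantCoeff y)) +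
        (PowerSeries.C (algebraMap ℂ (KP m) (MvPolynomial.constantCoeff y)) *
        (psi n m (aeval (gp n m) x) -
          algebraMap ℂ (PowerSeries (KP m)) (MvPolynomial.constantCoeff x)) +
        PowerSeries.C (algebraMap ℂ (KP m) (MvPolynomial.constantCoeff x)) *
        (psi n m (aeval (gp n m) y) -
          algebraMap ℂ (PowerSeries (KP m)) (MvPolynomial.constantCoeff y))) := by
      rw [map_mul, map_mul, map_mul, map_mul, PowerSeries.algebraMap_apply,
        PowerSeries.algebraMap_apply]
      ring
    rw [e]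
    exact (hx.mul hy).add ((hx.smul _).add (hy.smul _))

theorem constantCoeff_gp (f : MvPolynomial (Fin n) ℂ) :
    MvPolynomial.constantCoeff (aeval (gp n m) f) = MvPolynomial.constantCoeff f := by
  have h : (MvPolynomial.constantCoeff (R := ℂ) (σ := Fin m ⊕ Fin m)).comp
      (aeval (gp n m)).toRingHom = MvPolynomial.constantCoeff (σ := Fin n) := by
    apply MvPolynomial.ringHom_ext
    · intro c
      change MvPolynomial.constantCoeff (aeval (gp n m) (C c)) = _
      rw [aeval_C, MvPolynomial.algebraMap_eq, constantCoeff_C, constantCoeff_C]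
    · intro l
      change MvPolynomial.constantCoeff (aeval (gp n m) (X l)) = _
      rw [aeval_X, constantCoeff_X, gp, G, map_sum]
      apply Finset.sum_eq_zero
      intro j _
      rw [map_mul, constantCoeff_X, zero_mul]
  exact RingHom.congr_fun h f

/-- `f` is constant or nonconstant on the generator. -/
def Hit (m : ℕ) (f : MvPolynomial (Fin n) ℂ) : Prop :=
  f = C (MvPolynomial.constantCoeff f) ∨
    aeval (gp n m) f ≠ C (MvPolynomial.constantCoeff f)

theorem Hit.ne_zero {f : MvPolynomial (Fin n) ℂ} (h : Hit m f) (h0 : f ≠ 0) :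
    aeval (gp n m) f ≠ 0 := by
  rcases h with h | h
  · intro h1
    have h2 := constantCoeff_gp (m := m) f
    rw [h1, map_zero] at h2
    rw [← h2, map_zero] at h
    exact h0 h
  · intro h1
    have h2 := constantCoeff_gp (m := m) f
    rw [h1, map_zero] at h2
    rw [h1, ← h2, map_zero] at h
    exact h rfl

/-- Disjoint sums of nonconstant polynomials are nonconstant on the generator. -/
theorem pole_add {s t : Finset (Fin n)} (hst : Disjoint s t) {f g : MvPolynomial (Fin n) ℂ}
    (hf : Supp s f) (hg : Supp t g)
    (h : aeval (gp n m) (f + g) = C (MvPolynomial.constantCoeff (f + g))) :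
    aeval (gp n m) f = C (MvPolynomial.constantCoeff f) := by
  have h1 := hf.KK (m := m)
  have h2 := hg.KK (m := m)
  have h3 := h1.disj h2 hst (by
    have h4 := congrArg (psi n m) h
    rw [← MvPolynomial.algebraMap_eq, AlgHom.commutes, map_add, map_add, map_add, map_add] at h4
    linear_combination h4)
  apply psi_injective (n := n) (m := m)
  rw [← MvPolynomial.algebraMap_eq, AlgHom.commutes]
  exact sub_eq_zero.1 h3

theorem clo_hit {B : Finset (Fin n) → MvPolynomial (Fin n) ℂ → Prop}
    (hBs : ∀ s f, B s f → Supp s f) (hB : ∀ s f, B s f → Hit m f) {s : Finset (Fin n)}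
    {f : MvPolynomial (Fin n) ℂ} (hf : Clo B s f) : Hit m f := by
  induction hf with
  | base h => exact hB _ _ h
  | const s c =>
    left
    rw [constantCoeff_C]
  | @add s t f g hst hf hg ihf ihg =>
    rcases ihf with h1 | h1
    · rcases ihg with h2 | h2
      · left
        rw [map_add, map_add, ← h1, ← h2]
      · right
        intro h3
        apply h2
        rw [h1, map_add, map_add, map_add, constantCoeff_C, aeval_C, MvPolynomial.algebraMap_eq]
          at h3
        exact add_left_cancel h3
    · right
      intro h3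
      exact h1 (pole_add hst (hf.supp hBs) (hg.supp hBs) h3)
  | @mul s t f g hst hf hg ihf ihg =>
    rcases ihf with h1 | h1
    · rcases ihg with h2 | h2
      · left
        rw [map_mul, map_mul, ← h1, ← h2]
      · rcases eq_or_ne (MvPolynomial.constantCoeff f) 0 with h4 | h4
        · left
          rw [h4, C_0] at h1
          rw [h1, zero_mul, map_zero, map_zero]
        · right
          intro h3
          apply h2
          rw [h1, map_mul, map_mul, map_mul, constantCoeff_C, aeval_C,
            MvPolynomial.algebraMap_eq] at h3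
          exact mul_left_cancel₀ (C_ne_zero.2 h4) h3
    · rcases ihg with h2 | h2
      · rcases eq_or_ne (MvPolynomial.constantCoeff g) 0 with h4 | h4
        · left
          rw [h4, C_0] at h2
          rw [h2, mul_zero, map_zero, map_zero]
        · right
          intro h3
          apply h1
          rw [h2, map_mul, map_mul, map_mul, constantCoeff_C, aeval_C,
            MvPolynomial.algebraMap_eq] at h3
          exact mul_right_cancel₀ (C_ne_zero.2 h4) h3
      · right
        intro h3
        rw [map_mul (aeval (gp n m)), map_mul MvPolynomial.constantCoeff] at h3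
        have hcf := constantCoeff_gp (m := m) f
        have hcg := constantCoeff_gp (m := m) g
        by_cases h4 : MvPolynomial.constantCoeff f * MvPolynomial.constantCoeff g = 0
        · rw [h4, map_zero] at h3
          rcases mul_eq_zero.1 h3 with h5 | h5
          · rw [h5, map_zero] at hcf
            apply h1
            rw [h5, ← hcf, map_zero]
          · rw [h5, map_zero] at hcg
            apply h2
            rw [h5, ← hcg, map_zero]
        · have hu : IsUnit (aeval (gp n m) f) := by
            apply isUnit_of_mul_isUnit_left (y := aeval (gp n m) g)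
            rw [h3]
            exact (isUnit_iff_ne_zero.2 h4).map C
          obtain ⟨r, _, hr⟩ := MvPolynomial.isUnit_iff_eq_C_of_isReduced.1 hu
          apply h1
          rw [hr, constantCoeff_C] at hcf
          rw [hr, hcf]

end

end Pool.Agent.Helper91.Ov
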