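import Mathlib
import Pool.Agent.Helper28.D4.Hit
import Pool.Agent.Helper28.VT.W1
import Pool.Agent.Helper91.Ov.Pole
import Pool.Agent.Helper91.Ov.RP

/-!
# The generator hits all formulas of bounded overlap depth
-/

set_option autoImplicit false
set_option linter.unusedSectionVars false

namespace Pool.Agent.Helper91.Ov

open MvPolynomial
open Pool.Agent.Helper28.D4 (G map_G)
open Pool.Agent.Helper91.RO (res EA ev)

variable {n : ℕ}

/-- Additional seeds free the variables of a small set. -/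
theorem exists_seeds {F : Type*} [Field F] [Algebra ℂ F] {K m : ℕ} (S : Finset (Fin n))
    (hS : S.card ≤ K) (Z W : Fin m → F) :
    ∃ zz ww : Fin (K + m) → MvPolynomial (Fin n) F, ∀ l, G n (K + m) zz ww l =
      if l ∈ S then X l else C (G n m Z W l) := by
  classical
  have hcard : Fintype.card S ≤ Fintype.card (Fin K) := by
    rw [Fintype.card_coe, Fintype.card_fin]
    exact hS
  obtain ⟨ι⟩ := Function.Embedding.nonempty_of_card_le hcard
  let z : Fin K → MvPolynomial (Fin n) F := Function.extend ι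
    (fun s => C (algebraMap ℂ F (Pool.Agent.Helper28.VT.kap n s.1)⁻¹) *
      (X s.1 - C (G n m Z W s.1))) 0
  let w : Fin K → MvPolynomial (Fin n) F := Function.extend ι
    (fun s => C (algebraMap ℂ F ((s.1 : ℕ) : ℂ))) 0
  let zz : Fin (K + m) → MvPolynomial (Fin n) F := Fin.append z fun j => C (Z j)
  let ww : Fin (K + m) → MvPolynomial (Fin n) F := Fin.append w fun j => C (W j)
  refine ⟨zz, ww, fun l => ?_⟩
  rw [G, Fin.sum_univ_add]
  have e5 : ∀ j : Fin K, zz (Fin.castAdd m j) = z j := fun j => Fin.append_left _ _ _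
  have e6 : ∀ j : Fin K, ww (Fin.castAdd m j) = w j := fun j => Fin.append_left _ _ _
  have e7 : ∀ j : Fin m, zz (Fin.natAdd K j) = C (Z j) := fun j => Fin.append_right _ _ _
  have e8 : ∀ j : Fin m, ww (Fin.natAdd K j) = C (W j) := fun j => Fin.append_right _ _ _
  simp only [e5, e6, e7, e8]
  have e9 : ∑ j : Fin m, (C (Z j) : MvPolynomial (Fin n) F) * ∏ i' ∈ Finset.univ.erase l,
      (C (W j) - ((i' : ℕ) : MvPolynomial (Fin n) F)) = C (G n m Z W l) :=
    (map_G (C : F →+* MvPolynomial (Fin n) F) Z W l).symm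
  have e11 : ∑ j : Fin K, z j * ∏ i' ∈ Finset.univ.erase l,
      (w j - ((i' : ℕ) : MvPolynomial (Fin n) F)) =
      ∑ s : S, (C (algebraMap ℂ F (Pool.Agent.Helper28.VT.kap n s.1)⁻¹) *
        (X s.1 - C (G n m Z W s.1))) * ∏ i' ∈ Finset.univ.erase l,
        (C (algebraMap ℂ F ((s.1 : ℕ) : ℂ)) - ((i' : ℕ) : MvPolynomial (Fin n) F)) := by
    symm
    apply Fintype.sum_of_injective ι ι.injective
    · intro j hj
      have : z j = 0 := Function.extend_apply' _ _ _ (fun ⟨s, hs⟩ => hj ⟨s, hs⟩)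
      rw [this, zero_mul]
    · intro s
      have h1 : z (ι s) = _ := ι.injective.extend_apply _ _ s
      have h2 : w (ι s) = _ := ι.injective.extend_apply _ _ s
      rw [h1, h2]
  rw [e9, e11]
  have e12 : ∀ (s : Fin n), (C (algebraMap ℂ F ((s : ℕ) : ℂ)) : MvPolynomial (Fin n) F) =
      ((s : ℕ) : MvPolynomial (Fin n) F) := fun s => by rw [map_natCast, map_natCast]
  have hzero : ∀ s : S, s.1 ≠ l → ∏ i' ∈ Finset.univ.erase l,
      (C (algebraMap ℂ F ((s.1 : ℕ) : ℂ)) - ((i' : ℕ) : MvPolynomial (Fin n) F)) = 0 := by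
    intro s hs
    apply Finset.prod_eq_zero (Finset.mem_erase.2 ⟨hs, Finset.mem_univ s.1⟩)
    rw [e12, sub_self]
  by_cases hl : l ∈ S
  · rw [if_pos hl, Finset.sum_eq_single ⟨l, hl⟩]
    · have e13 : ∏ i' ∈ Finset.univ.erase l,
          (C (algebraMap ℂ F ((l : ℕ) : ℂ)) - ((i' : ℕ) : MvPolynomial (Fin n) F)) =
          C (algebraMap ℂ F (Pool.Agent.Helper28.VT.kap n l)) := by
        rw [Pool.Agent.Helper28.VT.kap, map_prod, map_prod]
        apply Finset.prod_congr rfl
        intro i' _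
        rw [map_sub, map_sub, map_natCast (algebraMap ℂ F) (i' : ℕ),
          map_natCast (C : F →+* MvPolynomial (Fin n) F) (i' : ℕ)]
      dsimp only
      rw [e13, mul_comm (C (algebraMap ℂ F (Pool.Agent.Helper28.VT.kap n l)⁻¹)), mul_assoc,
        ← map_mul, ← map_mul, inv_mul_cancel₀ (Pool.Agent.Helper28.VT.kap_ne n l), map_one,
        map_one, mul_one, sub_add_cancel]
    · intro s _ hs
      rw [hzero s (fun h => hs (Subtype.ext h)), mul_zero]
    · intro h
      exact absurd (Finset.mem_univ _) h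
  · rw [if_neg hl, Finset.sum_eq_zero, zero_add]
    intro s _
    rw [hzero s (fun h => hl (h ▸ s.2)), mul_zero]

/-- A nonzero restriction gives a nonzero value on the generator. -/
theorem gp_ne_zero_of_res {F : Type*} [Field F] [Algebra ℂ F] {K m : ℕ} (S : Finset (Fin n))
    (hS : S.card ≤ K) (Z W : Fin m → F) {f : MvPolynomial (Fin n) ℂ}
    (h : res (G n m Z W) S f ≠ 0) : aeval (gp n (K + m)) f ≠ 0 := by
  obtain ⟨zz, ww, hG⟩ := exists_seeds S hS Z W
  intro h0
  apply h
  let φ : PP (K + m) →ₐ[ℂ] MvPolynomial (Fin n) F := aeval (Sum.elim zz ww)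
  have h1 : φ.comp (aeval (gp n (K + m))) = res (G n m Z W) S := by
    apply MvPolynomial.algHom_ext
    intro l
    rw [AlgHom.comp_apply, aeval_X, res, aeval_X, ← hG l, gp]
    refine (map_G φ.toRingHom (fun j => X (Sum.inl j)) (fun j => X (Sum.inr j)) l).trans ?_
    change G n (K + m) (fun j => φ (X (Sum.inl j))) (fun j => φ (X (Sum.inr j))) l =
      G n (K + m) zz ww l
    have e2 : (fun j => φ (X (Sum.inl j))) = zz := by
      funext j
      rw [aeval_X]
      rfl
    have e3 : (fun j => φ (X (Sum.inr j))) = ww := by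
      funext j
      rw [aeval_X]
      rfl
    rw [e2, e3]
  have h2 := congrArg (fun ψ => ψ f) h1
  rw [← h2, AlgHom.comp_apply, h0, map_zero]

/-- The number of seeds. -/
def seeds (k : ℕ) : ℕ → ℕ
  | 0 => k
  | Δ + 1 => loss k Δ (loss k Δ (wd (Δ + 1))) + seeds k Δ

/-- The generic point of the generator. -/
noncomputable def pF (n m : ℕ) (l : Fin n) : KP m := algebraMap (PP m) (KP m) (gp n m l)

theorem pF_eq (n m : ℕ) : pF n m = G n m (fun j => zK j) (fun j => wK j) := by
  funext l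
  exact map_G (algebraMap (PP m) (KP m)) _ _ l

theorem pF_ne_zero {m : ℕ} {f : MvPolynomial (Fin n) ℂ} (h : aeval (gp n m) f ≠ 0) :
    aeval (pF n m) f ≠ 0 := by
  have e : aeval (pF n m) f = algebraMap (PP m) (KP m) (aeval (gp n m) f) :=
    (MvPolynomial.comp_aeval_apply (gp n m) (IsScalarTower.toAlgHom ℂ (PP m) (KP m)) f).symm
  rw [e]
  intro h0
  exact h (IsFractionRing.injective (PP m) (KP m) (h0.trans (map_zero _).symm))

theorem leaf_hit {k : ℕ} {s : Finset (Fin n)} {f : MvPolynomial (Fin n) ℂ} (hf : Leaf k s f) :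
    Hit k f := by
  obtain ⟨t, _, ht, hft⟩ := hf
  by_cases h : f = C (MvPolynomial.constantCoeff f)
  · exact Or.inl h
  right
  intro h1
  set R := f - C (MvPolynomial.constantCoeff f) with hR
  have hR0 : R ≠ 0 := sub_ne_zero.2 h
  have hRt : Supp t R := by
    have h2 := hft.add (Supp.const t (-(MvPolynomial.constantCoeff f)))
    rwa [map_neg, ← sub_eq_add_neg] at h2
  have h3 : res (G n 0 (fun j : Fin 0 => (0 : ℂ)) (fun j => 0)) t R ≠ 0 := by
    have h4 := hRt.congr (res (G n 0 (fun j : Fin 0 => (0 : ℂ)) (fun j => 0)) t)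
      (AlgHom.id ℂ (MvPolynomial (Fin n) ℂ)) (by
        intro i hi
        rw [res, aeval_X, if_pos hi, AlgHom.id_apply])
    rw [h4]
    exact hR0
  have h5 := gp_ne_zero_of_res t ht _ _ h3
  apply h5
  rw [add_zero, hR, map_sub, h1, aeval_C, MvPolynomial.algebraMap_eq, sub_self]

theorem od_hit (k : ℕ) : ∀ (Δ : ℕ) {s : Finset (Fin n)} {f : MvPolynomial (Fin n) ℂ},
    OD k Δ s f → Hit (seeds k Δ) f := by
  intro Δ
  induction Δ with
  | zero =>
    intro s f hf
    exact clo_hit (B := Leaf k) (fun s f h => Leaf.supp h) (fun s f h => leaf_hit h) hf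
  | succ Δ ih =>
    intro s f hf
    have hp : ∀ (s : Finset (Fin n)) (f : MvPolynomial (Fin n) ℂ), OD k Δ s f → f ≠ 0 →
        aeval (pF n (seeds k Δ)) f ≠ 0 := fun s f h h0 => pF_ne_zero ((ih h).ne_zero h0)
    refine clo_hit (B := Blk (OD k Δ)) (fun s f h => Blk.supp (fun s f h => OD.supp h) h) ?_ hf
    intro s f h
    by_cases h0 : f = C (MvPolynomial.constantCoeff f)
    · exact Or.inl h0
    right
    intro h1
    have h2 := (rp_blk (pF n (seeds k Δ)) (two_le_wd Δ) (fun s f h => od_rp _ hp h) h).sub_const _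
      (MvPolynomial.constantCoeff f)
    obtain ⟨S, -, hS, h3⟩ := h2.bounded_support _ (sub_ne_zero.2 h0) ∅
    rw [Finset.card_empty, zero_add] at hS
    rw [pF_eq] at h3
    have h4 : aeval (gp n (seeds k (Δ + 1))) (f - C (MvPolynomial.constantCoeff f)) ≠ 0 :=
      gp_ne_zero_of_res S hS _ _ h3
    apply h4
    rw [map_sub, h1, aeval_C, MvPolynomial.algebraMap_eq, sub_self]

theorem od_hp (k Δ : ℕ) (s : Finset (Fin n)) (f : MvPolynomial (Fin n) ℂ) (h : OD k Δ s f)
    (h0 : f ≠ 0) : aeval (pF n (seeds k Δ)) f ≠ 0 := pF_ne_zero ((od_hit k Δ h).ne_zero h0)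

end Pool.Agent.Helper91.Ov
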