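import Mathlib
import Pool.Agent.Helper91.Ov.Hit
import Pool.Agent.Helper91.RO.Faith
import Pool.Agent.Helper62.VT.Final
import Pool.Agent.Helper62.VT.LowDeg
import Pool.Agent.Helper62.VT.Separable

/-!
# Products of polynomials in few formulas of bounded overlap depth
-/

set_option autoImplicit false
set_option linter.unusedSectionVars false

namespace Pool.Agent.Helper91.Ov

open MvPolynomial
open Pool.Agent.Helper28.D4 (G map_G)
open Pool.Agent.Helper62.VT
open Pool.Agent.Helper91.RO (res EA ev pderiv_res)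

variable {n : ℕ}

theorem loss_mono (k Δ : ℕ) : Monotone (loss k Δ) := by
  induction Δ with
  | zero =>
    intro a b hab
    rw [loss, loss]
    have h1 : 2 ^ (2 ^ (2 * a)) ≤ 2 ^ (2 ^ (2 * b)) :=
      Nat.pow_le_pow_right (by norm_num) (Nat.pow_le_pow_right (by norm_num) (by omega))
    exact Nat.mul_le_mul_left _ (Nat.mul_le_mul (by omega) h1)
  | succ Δ ih =>
    intro a b hab
    rw [loss, loss]
    have h1 : 2 ^ (2 ^ (2 * a)) ≤ 2 ^ (2 ^ (2 * b)) :=
      Nat.pow_le_pow_right (by norm_num) (Nat.pow_le_pow_right (by norm_num) (by omega))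
    have h2 := ih (ih hab)
    exact Nat.mul_le_mul_left _ (Nat.mul_le_mul (by omega) h1)

theorem loss_iter_le {k Δ q q' N N' : ℕ} (hq : q ≤ q') (hN : N ≤ N') :
    (loss k Δ)^[q] N ≤ (loss k Δ)^[q'] N' := by
  calc (loss k Δ)^[q] N ≤ (loss k Δ)^[q] N' := (loss_mono k Δ).iterate q hN
    _ ≤ (loss k Δ)^[q'] N' :=
      Function.monotone_iterate_of_id_le (fun N => le_loss k Δ N) hq N'

/-- The support bound. -/
def supp (k Δ M : ℕ) : ℕ :=
  M + (loss k (2 * Δ))^[M * M] (M.factorial * wd (2 * Δ) ^ M)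

/-- The number of vectors. -/
def KR (k Δ M : ℕ) : ℕ := supp k Δ M + seeds k (2 * Δ)

/-- Algebraically independent formulas stay independent. -/
theorem algInd_res {F : Type*} [Field F] [Algebra ℂ F] {k Δ : ℕ} (p : Fin n → F)
    (hp : ∀ (s : Finset (Fin n)) (f : MvPolynomial (Fin n) ℂ), OD k (2 * Δ) s f →
    f ≠ 0 → aeval p f ≠ 0) {t : ℕ} (c : Fin t → MvPolynomial (Fin n) ℂ)
    (hc : ∀ i, ∃ s, OD k Δ s (c i)) (hi : AlgebraicIndependent ℂ c) :
    ∃ S : Finset (Fin n), S.card ≤ supp k Δ t ∧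
      AlgebraicIndependent F fun i => res p S (c i) := by
  classical
  have : CharZero F := charZero_of_injective_algebraMap (algebraMap ℂ F).injective
  obtain ⟨e, hdet⟩ := Pool.Agent.Helper93.D4.jac_of_algInd c hi
  choose s hs using hc
  have h1 := rp_det p (Matrix.of fun i j => MvPolynomial.pderiv (e j) (c i)) (fun i j =>
    od_rp p hp ((hs i).pderiv (e j)))
  obtain ⟨S, h2, h3, h4⟩ := h1.bounded_support p hdet (Finset.univ.image e)
  refine ⟨S, h3.trans (Nat.add_le_add_right ?_ _), ?_⟩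
  · refine Finset.card_image_le.trans ?_
    rw [Finset.card_univ, Fintype.card_fin]
  · apply Pool.Agent.Helper91.SW.algInd_of_minor (fun i => res p S (c i)) e
    rw [AlgHom.map_det] at h4
    intro h0
    apply h4
    rw [← h0]
    congr 1
    ext1 i j
    rw [AlgHom.mapMatrix_apply, Matrix.map_apply, Matrix.of_apply, Matrix.of_apply, pderiv_res]
    exact h2 (Finset.mem_image_of_mem e (Finset.mem_univ j))

theorem exists_phi {F : Type*} [Field F] [Algebra ℂ F] {K m : ℕ} (S : Finset (Fin n))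
    (hS : S.card ≤ K) (Z W : Fin m → F) :
    ∃ φ : MvPolynomial (Option (Fin (K + m) ⊕ Fin (K + m))) ℂ →ₐ[ℂ] MvPolynomial (Fin n) F,
      ∀ f, φ (spec n (K + m) (fun _ => 0) f) = res (G n m Z W) S f := by
  obtain ⟨zz, ww, hG⟩ := exists_seeds S hS Z W
  let φ : MvPolynomial (Option (Fin (K + m) ⊕ Fin (K + m))) ℂ →ₐ[ℂ] MvPolynomial (Fin n) F :=
    aeval fun o => o.elim 0 (Sum.elim zz ww)
  refine ⟨φ, fun f => ?_⟩
  have h : φ.comp (spec n (K + m) (fun _ => 0)) = res (G n m Z W) S := by
    apply MvPolynomial.algHom_ext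
    intro l
    rw [AlgHom.comp_apply, spec, aeval_X, map_zero, zero_add, res, aeval_X, ← hG l]
    refine (map_G φ.toRingHom (fun j => X (some (Sum.inl j)))
      (fun j => X (some (Sum.inr j))) l).trans ?_
    change G n (K + m) (fun j => φ (X (some (Sum.inl j)))) (fun j => φ (X (some (Sum.inr j)))) l =
      G n (K + m) zz ww l
    have e2 : (fun j => φ (X (some (Sum.inl j)))) = zz := by
      funext j
      rw [aeval_X]
      rfl
    have e3 : (fun j => φ (X (some (Sum.inr j)))) = ww := by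
      funext j
      rw [aeval_X]
      rfl
    rw [e2, e3]
  exact congrArg (fun ψ => ψ f) h

theorem supp_mono {k Δ t M : ℕ} (h : t ≤ M) : supp k Δ t ≤ supp k Δ M := by
  refine Nat.add_le_add h (loss_iter_le (Nat.mul_le_mul h h) (Nat.mul_le_mul
    (Nat.factorial_le h) (Nat.pow_le_pow_right ?_ h)))
  have := two_le_wd (2 * Δ)
  omega

theorem od_faithful (n k Δ M : ℕ) (c : Fin M → MvPolynomial (Fin n) ℂ)
    (hc : ∀ j, ∃ s, OD k Δ s (c j)) (H : MvPolynomial (Fin M) ℂ) (h : aeval c H ≠ 0) :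
    spec n (KR k Δ M) (fun _ => 0) (aeval c H) ≠ 0 := by
  obtain ⟨t, ht, s, hs, B, g, hB, hBg⟩ := Pool.Agent.Helper28.D4.norm_trick (r := M) c (by
    intro s hs
    have : Function.Injective s := fun i j hij => hs.injective (by simp [hij])
    have := Fintype.card_le_of_injective s this
    simp at this) H h
  obtain ⟨S, hS1, hS2⟩ := algInd_res (pF n (seeds k (2 * Δ))) (od_hp k (2 * Δ))
    (fun i => c (s i)) (fun i => hc (s i)) hs
  have hS3 : S.card ≤ supp k Δ M := hS1.trans (supp_mono ht)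
  obtain ⟨φ, hφ⟩ := exists_phi S hS3 (fun j : Fin (seeds k (2 * Δ)) => zK j) (fun j => wK j)
  rw [← pF_eq] at hφ
  intro h0
  have h1 : res (pF n (seeds k (2 * Δ))) S (aeval c H) = 0 := by
    rw [← hφ]
    have e : spec n (supp k Δ M + seeds k (2 * Δ)) (fun _ => 0) (aeval c H) = 0 := h0
    rw [e, map_zero]
  have h2 := congrArg (res (pF n (seeds k (2 * Δ))) S) hBg
  rw [map_mul, h1, zero_mul, MvPolynomial.comp_aeval_apply] at h2
  have h3 : aeval (fun i => res (pF n (seeds k (2 * Δ))) S (c (s i)))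
      (map (algebraMap ℂ (KP (seeds k (2 * Δ)))) B) = 0 := by
    rw [aeval_map_algebraMap]
    exact h2
  rw [algebraicIndependent_iff] at hS2
  have h4 := hS2 _ h3
  exact hB (MvPolynomial.map_injective _ (algebraMap ℂ (KP (seeds k (2 * Δ)))).injective
    (h4.trans (map_zero _).symm))

theorem one_le_par (k Δ : ℕ) : 1 ≤ par k Δ := by
  cases Δ with
  | zero => rw [par]; omega
  | succ Δ => rw [par]; omega

/-- A formula is a polynomial in the variables of `T` and in few formulas without these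
variables. -/
theorem od_params {k Δ : ℕ} (T : Finset (Fin n)) {s : Finset (Fin n)}
    {f : MvPolynomial (Fin n) ℂ} (hf : OD k Δ s f) :
    ∃ l : List (MvPolynomial (Fin n) ℂ), l.length ≤ par k Δ ^ T.card ∧
      (∀ g ∈ l, ∃ s', Disjoint s' T ∧ OD k Δ s' g) ∧
      f ∈ Algebra.adjoin ℂ ({g | g ∈ l} ∪ (fun v => (X v : MvPolynomial (Fin n) ℂ)) '' T) := by
  classical
  induction T using Finset.induction_on with
  | empty =>
    refine ⟨[f], ?_, ?_, ?_⟩
    · rw [List.length_singleton, Finset.card_empty, pow_zero]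
    · intro g hg
      rw [List.mem_singleton] at hg
      subst hg
      exact ⟨s, Finset.disjoint_empty_right s, hf⟩
    · exact Algebra.subset_adjoin (Or.inl (List.mem_singleton_self f))
  | insert v T hv ih =>
    obtain ⟨l, h1, h2, h3⟩ := ih
    have h4 : ∀ g : MvPolynomial (Fin n) ℂ, ∃ l' : List (MvPolynomial (Fin n) ℂ),
        l'.length ≤ par k Δ ∧ (g ∈ l → (∀ g' ∈ l', ∃ s', Disjoint s' (insert v T) ∧ OD k Δ s' g') ∧
          g ∈ Algebra.adjoin ℂ (insert (X v) {g' | g' ∈ l'})) := by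
      intro g
      by_cases hg : g ∈ l
      · obtain ⟨s', hs', hg'⟩ := h2 g hg
        obtain ⟨l', a1, a2, a3⟩ := hg'.split_var v
        have hd : Disjoint (s'.erase v) (insert v T) := by
          rw [Finset.disjoint_insert_right]
          exact ⟨Finset.notMem_erase v s', hs'.mono_left (Finset.erase_subset v s')⟩
        exact ⟨l', a1, fun _ => ⟨fun g' hg' => ⟨_, hd, a2 g' hg'⟩, a3⟩⟩
      · exact ⟨[], Nat.zero_le _, fun h => absurd h hg⟩
    choose l' h5 h6 using h4
    refine ⟨l.flatMap l', ?_, ?_, ?_⟩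
    · have e : (l.flatMap l').length ≤ par k Δ * l.length := by
        clear h1 h2 h3 h6
        induction l with
        | nil => exact Nat.zero_le _
        | cons a l ih =>
          rw [List.flatMap_cons, List.length_append, List.length_cons, mul_add, mul_one]
          have := h5 a
          omega
      refine e.trans ?_
      rw [Finset.card_insert_of_notMem hv, pow_succ']
      exact Nat.mul_le_mul_left _ h1
    · intro g hg
      obtain ⟨g', hg', hgg⟩ := List.mem_flatMap.1 hg
      exact (h6 g' hg').1 g hgg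
    · have hle : Algebra.adjoin ℂ ({g | g ∈ l} ∪
          (fun v => (X v : MvPolynomial (Fin n) ℂ)) '' (T : Set (Fin n))) ≤
          Algebra.adjoin ℂ ({g | g ∈ l.flatMap l'} ∪
            (fun v => (X v : MvPolynomial (Fin n) ℂ)) '' ((insert v T : Finset (Fin n)) :
              Set (Fin n))) := by
        apply Algebra.adjoin_le
        rintro g (hg | ⟨w, hw, rfl⟩)
        · have hg' : g ∈ l := hg
          have hX : (X v : MvPolynomial (Fin n) ℂ) ∈
              Algebra.adjoin ℂ ({g | g ∈ l.flatMap l'} ∪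
            (fun v => (X v : MvPolynomial (Fin n) ℂ)) '' ((insert v T : Finset (Fin n)) :
              Set (Fin n))) :=
            Algebra.subset_adjoin (Or.inr ⟨v, Finset.mem_coe.2 (Finset.mem_insert_self v T), rfl⟩)
          have h7 : Algebra.adjoin ℂ (insert (X v) {g' | g' ∈ l' g}) ≤
              Algebra.adjoin ℂ ({g | g ∈ l.flatMap l'} ∪
            (fun v => (X v : MvPolynomial (Fin n) ℂ)) '' ((insert v T : Finset (Fin n)) :
              Set (Fin n))) := by
            apply Algebra.adjoin_le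
            rintro x (rfl | hx)
            · exact hX
            · exact Algebra.subset_adjoin (Or.inl (List.mem_flatMap.2 ⟨g, hg', hx⟩))
          exact h7 (h6 g hg').2
        · exact Algebra.subset_adjoin (Or.inr ⟨w, Finset.mem_coe.2
            (Finset.mem_insert_of_mem (Finset.mem_coe.1 hw)), rfl⟩)
      exact hle h3

/-- Formulas without the chosen variables are constants of the split. -/
theorem split_supp {r : ℕ} {e : Fin r → Fin n} {s : Finset (Fin n)} {f : MvPolynomial (Fin n) ℂ}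
    (hf : Supp s f) (hs : Disjoint s (Finset.univ.image e)) :
    split e (X : Fin n → MvPolynomial (Fin n) ℂ) f = C f := by
  have h := hf.congr (split e (X : Fin n → MvPolynomial (Fin n) ℂ))
    (IsScalarTower.toAlgHom ℂ (MvPolynomial (Fin n) ℂ)
      (MvPolynomial (Fin r) (MvPolynomial (Fin n) ℂ))) (by
      intro i hi
      rw [split_X_not]
      · rfl
      · intro j hj
        exact Finset.disjoint_left.1 hs hi (hj ▸ Finset.mem_image_of_mem e (Finset.mem_univ j)))
  exact h

/-- The parameters of a formula. -/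
theorem od_split {k Δ r : ℕ} {e : Fin r → Fin n} (he : Function.Injective e)
    {A : MvPolynomial (Fin n) ℂ} (hA : ∃ s, OD k Δ s A) :
    ∃ γ : Fin (par k Δ ^ r) → MvPolynomial (Fin n) ℂ, (∀ j, ∃ s, OD k Δ s (γ j)) ∧
      split e (X : Fin n → MvPolynomial (Fin n) ℂ) A ∈
        W r (Algebra.adjoin ℂ (Set.range γ)) := by
  classical
  obtain ⟨s, hs⟩ := hA
  obtain ⟨l, h1, h2, h3⟩ := od_params (Finset.univ.image e) hs
  have hl : l.length ≤ par k Δ ^ r := by
    refine h1.trans (Nat.pow_le_pow_right (one_le_par k Δ) ?_)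
    refine Finset.card_image_le.trans ?_
    rw [Finset.card_univ, Fintype.card_fin]
  let γ : Fin (par k Δ ^ r) → MvPolynomial (Fin n) ℂ := fun j => l.getD j 0
  have hγ : ∀ g ∈ l, ∃ j, γ j = g := by
    intro g hg
    obtain ⟨i, hi, rfl⟩ := List.getElem_of_mem hg
    refine ⟨⟨i, lt_of_lt_of_le hi hl⟩, ?_⟩
    exact List.getD_eq_getElem l 0 hi
  refine ⟨γ, ?_, ?_⟩
  · intro j
    by_cases hj : (j : ℕ) < l.length
    · have e1 : γ j = l[(j : ℕ)] := List.getD_eq_getElem l 0 hj
      obtain ⟨s', -, hs'⟩ := h2 _ (List.getElem_mem hj)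
      exact ⟨s', e1 ▸ hs'⟩
    · have e1 : γ j = 0 := List.getD_eq_default l 0 (not_lt.1 hj)
      exact ⟨∅, e1 ▸ OD.zero k Δ ∅⟩
  · have hle : Algebra.adjoin ℂ ({g | g ∈ l} ∪ (fun v => (X v : MvPolynomial (Fin n) ℂ)) ''
        ((Finset.univ.image e : Finset (Fin n)) : Set (Fin n))) ≤
        (W r (Algebra.adjoin ℂ (Set.range γ))).comap
          (split e (X : Fin n → MvPolynomial (Fin n) ℂ)) := by
      apply Algebra.adjoin_le
      rintro g (hg | ⟨w, hw, rfl⟩)
      · have hg' : g ∈ l := hg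
        obtain ⟨s', hd, hs'⟩ := h2 g hg'
        change split e (X : Fin n → MvPolynomial (Fin n) ℂ) g ∈
          W r (Algebra.adjoin ℂ (Set.range γ))
        rw [split_supp hs'.supp hd]
        obtain ⟨j, hj⟩ := hγ g hg'
        exact C_mem_W (Algebra.subset_adjoin ⟨j, hj⟩)
      · obtain ⟨j, -, rfl⟩ := Finset.mem_image.1 (Finset.mem_coe.1 hw)
        change split e (X : Fin n → MvPolynomial (Fin n) ℂ) (X (e j)) ∈
          W r (Algebra.adjoin ℂ (Set.range γ))
        rw [split_X_mem he]
        exact X_mem_W _ j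
    exact hle h3

/-- The factors. -/
def OdFactors (n k Δ κ : ℕ) : Set (MvPolynomial (Fin n) ℂ) :=
  {f | ∃ (A : Fin κ → MvPolynomial (Fin n) ℂ) (F : MvPolynomial (Fin κ) ℂ),
    (∀ j, ∃ s, OD k Δ s (A j)) ∧ f = aeval A F}

theorem od_hits {k Δ m r κ d : ℕ} (P : Fin m → MvPolynomial (Fin n) ℂ)
    (hP : ∀ i, P i ∈ Submonoid.closure (OdFactors n k Δ κ))
    (hr : ∀ s : Fin (r + 1) → Fin m, ¬ AlgebraicIndependent ℂ fun i => P (s i))
    (g : MvPolynomial (Fin m) ℂ) (h0 : aeval P g ≠ 0) (hd : (aeval P g).totalDegree ≤ d) :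
    ∃ a ∈ gpts n (r + KR k Δ ((r + 1) * (κ * par k Δ ^ r))) (d * n),
      eval (fun l => ((a l : ℤ) : ℂ)) (aeval P g) ≠ 0 := by
  classical
  obtain ⟨ε, hε, h⟩ := exists_point (M := KR k Δ ((r + 1) * (κ * par k Δ ^ r))) (D := 0) P hr g
    h0 hd {fun _ => 0} (by
      rintro ε rfl l
      rw [Polynomial.natDegree_zero]) (b := d * n) (by
      rw [zero_add]) (by
      intro r' hr' t ht e he
      have hL : ∀ i, ∃ L : List (MvPolynomial (Fin n) ℂ), (∀ q ∈ L, q ∈ OdFactors n k Δ κ) ∧
          P (t i) = L.prod := fun i => by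
        obtain ⟨L, hL, h⟩ := Submonoid.exists_list_of_mem_closure (hP (t i))
        exact ⟨L, hL, h.symm⟩
      choose L hL1 hL2 using hL
      obtain ⟨B, hB1, hB2, f, mm, hf0, hfL, hfP, -⟩ :=
        exists_factorization (fun i => P (t i)) L hL2 ht
      refine ⟨B, hB1, hB2, f, mm, hf0, hfP, ?_⟩
      have hfac : ∀ b, f b ∈ OdFactors n k Δ κ := by
        intro b
        obtain ⟨i, hi⟩ := hfL b
        exact hL1 i _ hi
      choose A F hA hfA using hfac
      have hγ : ∀ b j, ∃ γ : Fin (par k Δ ^ r') → MvPolynomial (Fin n) ℂ,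
          (∀ j, ∃ s, OD k Δ s (γ j)) ∧
          split e (X : Fin n → MvPolynomial (Fin n) ℂ) (A b j) ∈
            W r' (Algebra.adjoin ℂ (Set.range γ)) :=
        fun b j => od_split he (hA b j)
      choose γ hγ1 hγ2 using hγ
      let γ' : B → Fin (κ * par k Δ ^ r') → MvPolynomial (Fin n) ℂ := fun b x =>
        γ b (finProdFinEquiv.symm x).1 (finProdFinEquiv.symm x).2
      refine ⟨fun b => Set.range (γ' b), ?_, fun _ => 0, rfl, ?_⟩
      · intro b k'
        rw [hfA b]
        apply coeff_split_aeval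
        intro j
        refine W_mono (Algebra.adjoin_mono ?_) (hγ2 b j)
        rintro _ ⟨i, rfl⟩
        refine ⟨finProdFinEquiv (j, i), ?_⟩
        change γ b (finProdFinEquiv.symm (finProdFinEquiv (j, i))).1
          (finProdFinEquiv.symm (finProdFinEquiv (j, i))).2 = γ b j i
        rw [Equiv.symm_apply_apply]
      · intro T hT
        exact faithful_of_tuple _ (Q := fun f => ∃ s, OD k Δ s f) ⟨∅, OD.zero k Δ ∅⟩ γ'
          (fun b x => hγ1 b _ _) (t := r' + 1)
          (Nat.mul_le_mul (Nat.succ_le_succ hr') (Nat.mul_le_mul_left κ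
            (Nat.pow_le_pow_right (one_le_par k Δ) hr')))
          (fun c hc H hH => od_faithful n k Δ _ c hc H hH) T hT)
  rw [Set.mem_singleton_iff] at hε
  subst hε
  obtain ⟨a, ha, hne⟩ := h
  refine ⟨a, pts_zero_subset _ _ _ ?_, hne⟩
  have e : (fun l : Fin n => (0 : Polynomial ℤ).eval) = fun _ _ => (0 : ℤ) := by
    funext l x
    exact Polynomial.eval_zero
  rw [← e]
  exact ha

end Pool.Agent.Helper91.Ov
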